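import Pool.Agent.Results.MP_c2409d_nt.ApproximationsOfRealTuples
import Pool.Agent.L5helper62.AD.MetR

/-!
# Rohrlich's conjecture: all fractions with numerators and denominators near almost every ray

Let `a_i = c_i t_{j(i)} + x_i` be affine functions with rational coefficients of one of `n` rational parameters; arguments
with the same parameter are commensurable, so that Rohrlich's identity may hold for all values of the parameters or not.
We prove the open direction of the conjecture, for the multiples `α π ^ (r/2)` whose factor `α` is of bounded complexity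
over the numbers `e(t_k / N)` and `p ^ (t_k / N)`, in the neighbourhood of almost every ray of the space of the `2 n`-tuples
of numerators and denominators: for almost all `(ξ, η)` in `ℝ^(2n)` and ALL sufficiently large real numbers `T` it holds at ALL
the tuples of fractions `t_l = k_l / D_l` in lowest terms with `|k_l - T ξ_l| ≤ T ^ δ` and `|D_l - T η_l| ≤ T ^ δ`, for every
`δ < 1 / (2 n - 1)`. One null set is sufficient for all `r`, all affine functions, all `δ` and all bounds for the complexity.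
For instance for almost all `(ξ, η)` and all large `T` none of the products `Γ(k_1 / D_1) ⋯ Γ(k_r / D_r)` with
`k_i / D_i` in lowest terms and `k_i = ⌊T ξ_i⌋ + O(1)`, `D_i = ⌊T η_i⌋ + O(1)`, for which Rohrlich's identity fails, is an
algebraic multiple `α π ^ (r/2)` with `α` of degree at most `d` and height at most `T ^ A`.

The starting file `ApproximationsOfRealTuples` of this problem has the rational tuples with denominators at most `T` and
`|y_l - t_l| ≤ T ^ (-τ)` for almost all real tuples `y`, where `τ > 2 - 2 / n ≥ 1` for `n ≥ 2`; here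
`|ξ_l / η_l - t_l|` is of the order `T ^ (-(1 - δ))`, where `1 - δ` is larger than `1 - 1 / (2 n - 1)` and less than `1`, so
that there are very many such tuples for every `T`.

Proof: the starting theorem `CommensurableArguments` of this problem bounds the number of the exceptional tuples: there are
at most `C H ^ (2 n - 2 + ε)` with numerators and denominators at most `H`; the lemma of Borel and Cantelli for the points
`T = k ^ (1 / (1 - δ))` of the ray.
-/

set_option autoImplicit false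

open Set Filter MeasureTheory

namespace Pool.Agent.Results.MP_c2409d_nt.AlmostEveryDirection

open Pool.Agent.Results.MP_c2409d_nt.CommensurableArguments (args Identity Simple Exceptional)
open Pool.Agent.Results.MP_c2409d_nt.ApproximationsOfRealTuples (Rohrlich)
open Pool.Agent.L5helper62.AD (inBox inBox_finite metricR)

/-- No number `c_i s + x_i` with real `s` in `[a, b]` is a pole of the gamma function. -/
def NoPoles {r : ℕ} (c x : Fin r → ℚ) (a b : ℚ) : Prop :=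
  ∀ i (s : ℝ), (a : ℝ) ≤ s → s ≤ (b : ℝ) → ∀ k : ℕ, (c i : ℝ) * s + x i ≠ -k

/-- The numerators and denominators of a tuple of rational numbers. -/
def numDen {n : ℕ} (t : Fin n → ℚ) : Fin n ⊕ Fin n → ℤ := Sum.elim (fun l => (t l).num) fun l => ((t l).den : ℤ)

/-- For all numbers `a_i = c_i t_{j(i)} + x_i` without poles for `t` in `[a, b]`, all `N ≥ 1`, `B`, `d`, `A`, all
`0 ≤ δ < 1 / (2 n - 1)` and all large real `T`: the open direction of the conjecture holds, for factors which are simple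
with coefficients at most `T ^ A`, at all the tuples of rational numbers in `[a, b]` whose numerators and denominators are
at distance at most `T ^ δ` from the coordinates of `T ξ`. -/
def GoodDirection {n : ℕ} (ξ : Fin n ⊕ Fin n → ℝ) : Prop :=
  ∀ (r : ℕ) (c x : Fin r → ℚ) (j : Fin r → Fin n) (a b : ℚ), (∀ i, c i ≠ 0) → NoPoles c x a b →
    ∀ N B d A : ℕ, 0 < N → ∀ δ : ℝ, 0 ≤ δ → (2 * (n : ℝ) - 1) * δ < 1 → ∃ T₀ : ℝ, ∀ T : ℝ, T₀ ≤ T →
      ∀ t : Fin n → ℚ, (∀ l, a ≤ t l ∧ t l ≤ b) → (∀ i, |(numDen t i : ℝ) - T * ξ i| ≤ T ^ δ) →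
        Rohrlich c x j N B d (T ^ A) t

/-- the size of the numerators and denominators -/
noncomputable def size {n : ℕ} (t : Fin n → ℚ) : ℝ := 1 + ∑ i, |(numDen t i : ℝ)|

theorem one_le_size {n : ℕ} (t : Fin n → ℚ) : 1 ≤ size t := by
  unfold size
  linarith [Finset.sum_nonneg fun i (_ : i ∈ Finset.univ) => abs_nonneg (numDen t i : ℝ)]

/-- the exceptional points -/
def Z {n r : ℕ} (c x : Fin r → ℚ) (j : Fin r → Fin n) (a b : ℚ) (N B d A : ℕ) : Set (Fin n ⊕ Fin n → ℤ) :=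
  numDen '' {t | (∀ l, a ≤ t l ∧ t l ≤ b) ∧ ¬ Rohrlich c x j N B d (size t ^ A) t}

theorem rohrlich_mono {n r : ℕ} {c x : Fin r → ℚ} {j : Fin r → Fin n} {N B d : ℕ} {H H' : ℝ} {t : Fin n → ℚ}
    (h : Rohrlich c x j N B d H t) (hH : H' ≤ H) : Rohrlich c x j N B d H' t := by
  intro α h5 h6
  refine h α h5 ?_
  obtain ⟨P, h7, h8, h9, h10⟩ := h6
  exact ⟨P, h7, h8, fun s => (h9 s).trans hH, h10⟩

theorem count {n r : ℕ} (hn : 1 ≤ n) (c x : Fin r → ℚ) (j : Fin r → Fin n) (a b : ℚ) (hc : ∀ i, c i ≠ 0)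
    (hp : NoPoles c x a b) (N B d A : ℕ) (hN : 0 < N) (ε : ℝ) (hε : 0 < ε) :
    ∃ C : ℝ, 0 ≤ C ∧ ∀ H : ℕ, ((inBox (Z c x j a b N B d A) H).ncard : ℝ) ≤
      C * (2 * (H : ℝ) + 1) ^ (2 * (n : ℝ) - 2 + ε) := by
  classical
  have hn' : (1 : ℝ) ≤ n := by exact_mod_cast hn
  obtain ⟨C, T₀, HC⟩ := Pool.Agent.Results.MP_c2409d_nt.CommensurableArguments.result n r c hc x j a b hp N B d hN
    A ε hε
  obtain ⟨K, hK0, hK⟩ := Pool.Agent.N84.MD.rats (a : ℝ) (b : ℝ)
  set θ : ℝ := 2 * (n : ℝ) - 2 + ε with hθ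
  have hθ0 : 0 ≤ θ := by linarith
  refine ⟨|C| * K ^ (n - 1) * (n : ℝ) ^ θ + (2 * |T₀| + 1) ^ (n + n), by positivity, fun H => ?_⟩
  have hH1 : (1 : ℝ) ≤ 2 * (H : ℝ) + 1 := by linarith [(Nat.cast_nonneg H : (0 : ℝ) ≤ H)]
  have hHθ : 1 ≤ (2 * (H : ℝ) + 1) ^ θ := Real.one_le_rpow hH1 hθ0
  set T : ℝ := n * (2 * (H : ℝ) + 1) with hT
  have hT1 : 1 ≤ T := by
    rw [hT]
    nlinarith
  have hT0 : 0 < T := by linarith
  rcases lt_or_ge T T₀ with hsmall | hbig
  · -- small boxes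
    have h1 : (inBox (Z c x j a b N B d A) H).ncard ≤ (2 * H + 1) ^ (n + n) := by
      have h2 : inBox (Z c x j a b N B d A) H ⊆
          (Fintype.piFinset fun _ : Fin n ⊕ Fin n => Finset.Icc (-(H : ℤ)) H : Finset (Fin n ⊕ Fin n → ℤ)) := by
        intro v hv
        rw [Finset.mem_coe, Fintype.mem_piFinset]
        exact fun i => Finset.mem_Icc.2 (abs_le.1 (hv.2 i))
      refine (Set.ncard_le_ncard h2 (Finset.finite_toSet _)).trans ?_
      rw [Set.ncard_coe_finset, Fintype.card_piFinset, Finset.prod_const, Finset.card_univ, Fintype.card_sum,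
        Fintype.card_fin, Int.card_Icc]
      refine le_of_eq ?_
      congr 1
      omega
    have h2 : (H : ℝ) ≤ |T₀| := by
      have h3 : (H : ℝ) ≤ T := by
        rw [hT]
        nlinarith [(Nat.cast_nonneg H : (0 : ℝ) ≤ H)]
      exact h3.trans (hsmall.le.trans (le_abs_self _))
    have h3 : ((inBox (Z c x j a b N B d A) H).ncard : ℝ) ≤ (2 * |T₀| + 1) ^ (n + n) := by
      calc ((inBox (Z c x j a b N B d A) H).ncard : ℝ) ≤ (((2 * H + 1) ^ (n + n) : ℕ) : ℝ) := by exact_mod_cast h1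
        _ = (2 * (H : ℝ) + 1) ^ (n + n) := by push_cast; ring
        _ ≤ (2 * |T₀| + 1) ^ (n + n) := pow_le_pow_left₀ (by positivity) (by linarith) _
    have h4 : 0 ≤ |C| * K ^ (n - 1) * (n : ℝ) ^ θ := by positivity
    have h5 : (0 : ℝ) ≤ (2 * |T₀| + 1) ^ (n + n) := by positivity
    calc ((inBox (Z c x j a b N B d A) H).ncard : ℝ) ≤ (2 * |T₀| + 1) ^ (n + n) := h3
      _ ≤ (|C| * K ^ (n - 1) * (n : ℝ) ^ θ + (2 * |T₀| + 1) ^ (n + n)) * 1 := by linarith
      _ ≤ _ := mul_le_mul_of_nonneg_left hHθ (by linarith)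
  · obtain ⟨X, hX1, hX2⟩ := hK T hT1
    obtain ⟨h1, h2⟩ := HC T hbig X fun q hq => (hX1 q).1 hq
    have hsub : inBox (Z c x j a b N B d A) H ⊆ numDen '' Exceptional c x j N B d (T ^ (A : ℝ)) X := by
      rintro v ⟨⟨t, ⟨ht, hR⟩, rfl⟩, hv⟩
      refine ⟨t, ?_, rfl⟩
      have hle : ∀ i, |(numDen t i : ℝ)| ≤ H := by
        intro i
        have := hv i
        exact_mod_cast this
      have hsize : size t ≤ T := by
        unfold size
        have h3 : ∑ i, |(numDen t i : ℝ)| ≤ ∑ _i : Fin n ⊕ Fin n, (H : ℝ) := Finset.sum_le_sum fun i _ => hle i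
        rw [Finset.sum_const, Finset.card_univ, Fintype.card_sum, Fintype.card_fin, nsmul_eq_mul] at h3
        push_cast at h3
        rw [hT]
        nlinarith
      have hden : ∀ l, ((t l).den : ℝ) ≤ T := by
        intro l
        have h3 : |(numDen t (Sum.inr l) : ℝ)| = ((t l).den : ℝ) := by
          simp [numDen]
        have h4 := hle (Sum.inr l)
        rw [h3] at h4
        rw [hT]
        nlinarith [(Nat.cast_nonneg H : (0 : ℝ) ≤ H)]
      have hR' : ¬ Rohrlich c x j N B d (T ^ (A : ℝ)) t := by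
        refine fun h => hR (rohrlich_mono h ?_)
        rw [Real.rpow_natCast]
        exact pow_le_pow_left₀ (by linarith [one_le_size t]) hsize A
      unfold Rohrlich at hR'
      push Not at hR'
      obtain ⟨α, h6, h7, h8⟩ := hR'
      refine ⟨fun l => (hX1 _).2 ⟨?_, ?_, hden l⟩, h8, α, h6, h7⟩
      · exact_mod_cast (ht l).1
      · exact_mod_cast (ht l).2
    have h3 : ((inBox (Z c x j a b N B d A) H).ncard : ℝ) ≤
        ((Exceptional c x j N B d (T ^ (A : ℝ)) X).ncard : ℝ) := by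
      exact_mod_cast (Set.ncard_le_ncard hsub (h1.image _)).trans (Set.ncard_image_le h1)
    have h5 : (X.card : ℝ) ^ (n - 1) ≤ (K * T ^ (2 : ℕ)) ^ (n - 1) :=
      pow_le_pow_left₀ (Nat.cast_nonneg _) hX2 _
    have h6 : T ^ θ = T ^ ε * (T ^ (2 : ℕ)) ^ (n - 1) := by
      rw [← pow_mul, ← Real.rpow_natCast T (2 * (n - 1)), ← Real.rpow_add hT0, hθ]
      congr 1
      push_cast [Nat.cast_sub hn]
      ring
    have h7 : T ^ θ = (n : ℝ) ^ θ * (2 * (H : ℝ) + 1) ^ θ := by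
      rw [hT, Real.mul_rpow (by positivity) (by positivity)]
    calc ((inBox (Z c x j a b N B d A) H).ncard : ℝ) ≤ C * T ^ ε * (X.card : ℝ) ^ (n - 1) := h3.trans h2
      _ ≤ |C| * T ^ ε * (K * T ^ (2 : ℕ)) ^ (n - 1) := by
        apply mul_le_mul _ h5 (by positivity) (by positivity)
        exact mul_le_mul_of_nonneg_right (le_abs_self C) (by positivity)
      _ = |C| * K ^ (n - 1) * T ^ θ := by
        rw [h6, mul_pow]
        ring
      _ = |C| * K ^ (n - 1) * (n : ℝ) ^ θ * (2 * (H : ℝ) + 1) ^ θ := by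
        rw [h7]
        ring
      _ ≤ _ := mul_le_mul_of_nonneg_right (by linarith [show (0 : ℝ) ≤ (2 * |T₀| + 1) ^ (n + n) by positivity])
        (by positivity)

theorem piece {n r : ℕ} (hn : 1 ≤ n) (c x : Fin r → ℚ) (j : Fin r → Fin n) (a b : ℚ) (hc : ∀ i, c i ≠ 0)
    (hp : NoPoles c x a b) (N B d A : ℕ) (hN : 0 < N) (δ : ℝ) (h0 : 0 ≤ δ) (h : (2 * (n : ℝ) - 1) * δ < 1) :
    ∀ᵐ ξ : Fin n ⊕ Fin n → ℝ, ∃ T₀ : ℝ, ∀ T : ℝ, T₀ ≤ T → ∀ v ∈ Z c x j a b N B d A,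
      ¬ ∀ i, |(v i : ℝ) - T * ξ i| ≤ T ^ δ := by
  have hn' : (1 : ℝ) ≤ n := by exact_mod_cast hn
  have h1 : δ < 1 := by nlinarith
  have h2 : 2 * (n : ℝ) - 2 < (1 - δ) * (2 * (n : ℝ) - 1) := by nlinarith
  obtain ⟨C, hC0, hC⟩ := count hn c x j a b hc hp N B d A hN
    (((1 - δ) * (2 * (n : ℝ) - 1) - (2 * (n : ℝ) - 2)) / 2) (by linarith)
  refine metricR (Z c x j a b N B d A) C _ hC0 (by linarith) hC δ h0 h1 ?_
  rw [Fintype.card_sum, Fintype.card_fin]
  push_cast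
  have e : (n : ℝ) + n - 1 = 2 * n - 1 := by ring
  rw [e]
  linarith

/-- **Rohrlich's conjecture (open direction, simple factors) near almost every ray.** -/
theorem result (n : ℕ) (hn : 1 ≤ n) : ∀ᵐ ξ : Fin n ⊕ Fin n → ℝ, GoodDirection ξ := by
  have hn' : (1 : ℝ) ≤ n := by exact_mod_cast hn
  have h1 : ∀ v : Σ r : ℕ, (Fin r → ℚ) × (Fin r → ℚ) × (Fin r → Fin n) × ℚ × ℚ × ℕ × ℕ × ℕ × ℕ × ℚ,
      ∀ᵐ ξ : Fin n ⊕ Fin n → ℝ, ((∀ i, v.2.1 i ≠ 0) ∧ NoPoles v.2.1 v.2.2.1 v.2.2.2.2.1 v.2.2.2.2.2.1 ∧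
        0 < v.2.2.2.2.2.2.1 ∧ 0 ≤ (v.2.2.2.2.2.2.2.2.2.2 : ℝ) ∧
        (2 * (n : ℝ) - 1) * (v.2.2.2.2.2.2.2.2.2.2 : ℝ) < 1) →
        ∃ T₀ : ℝ, ∀ T : ℝ, T₀ ≤ T → ∀ w ∈ Z v.2.1 v.2.2.1 v.2.2.2.1 v.2.2.2.2.1 v.2.2.2.2.2.1 v.2.2.2.2.2.2.1
          v.2.2.2.2.2.2.2.1 v.2.2.2.2.2.2.2.2.1 v.2.2.2.2.2.2.2.2.2.1,
            ¬ ∀ i, |(w i : ℝ) - T * ξ i| ≤ T ^ (v.2.2.2.2.2.2.2.2.2.2 : ℝ) := by
    rintro ⟨r, c, x, j, a, b, N, B, d, A, q⟩
    by_cases hv : (∀ i, c i ≠ 0) ∧ NoPoles c x a b ∧ 0 < N ∧ 0 ≤ (q : ℝ) ∧ (2 * (n : ℝ) - 1) * (q : ℝ) < 1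
    · filter_upwards [piece hn c x j a b hv.1 hv.2.1 N B d A hv.2.2.1 q hv.2.2.2.1 hv.2.2.2.2] with ξ hξ _
      exact hξ
    · exact Filter.Eventually.of_forall fun ξ h => absurd h hv
  have hne : Nonempty (Fin n ⊕ Fin n) := ⟨Sum.inl ⟨0, hn⟩⟩
  have h2 : ∀ᵐ ξ : Fin n ⊕ Fin n → ℝ, ξ ∉ ({0} : Set (Fin n ⊕ Fin n → ℝ)) :=
    (Set.countable_singleton _).ae_notMem _
  filter_upwards [ae_all_iff.2 h1, h2] with ξ hξ hξ0
  intro r c x j a b hc hp N B d A hN δ h0 hδ
  have hδ' : δ < 1 / (2 * (n : ℝ) - 1) := by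
    rw [lt_div_iff₀ (by linarith)]
    linarith
  obtain ⟨q, hq1, hq2⟩ := exists_rat_btwn hδ'
  have hq3 : (2 * (n : ℝ) - 1) * (q : ℝ) < 1 := by
    rw [lt_div_iff₀ (by linarith)] at hq2
    linarith
  have hq4 : (q : ℝ) < 1 := by nlinarith
  obtain ⟨T₀, hT₀⟩ := hξ ⟨r, c, x, j, a, b, N, B, d, A + 1, q⟩ ⟨hc, hp, hN, h0.trans hq1.le, hq3⟩
  obtain ⟨i₀, hi₀⟩ : ∃ i, ξ i ≠ 0 := by
    by_contra hcon
    push Not at hcon
    exact hξ0 (funext hcon)
  have hpos : 0 < |ξ i₀| / 2 := by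
    have := abs_pos.2 hi₀
    linarith
  set e : ℝ := |ξ i₀| / 2 with he
  have hev1 : ∀ᶠ T : ℝ in atTop, 1 / e ≤ T ^ (1 - (q : ℝ)) :=
    (tendsto_rpow_atTop (by linarith : 0 < 1 - (q : ℝ))).eventually_ge_atTop _
  have hev : ∀ᶠ T : ℝ in atTop, T₀ ≤ T ∧ 1 ≤ T ∧ 1 / e ≤ T ^ (1 - (q : ℝ)) ∧ 1 / e ^ (A + 1) ≤ T :=
    (eventually_ge_atTop T₀).and ((eventually_ge_atTop 1).and (hev1.and (eventually_ge_atTop _)))
  obtain ⟨T₁, hT₁⟩ := eventually_atTop.1 hev
  refine ⟨T₁, fun T hT t ht hnear => ?_⟩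
  obtain ⟨g1, g2, g3, g4⟩ := hT₁ T hT
  have hTp : 0 < T := by linarith
  have hTδ : T ^ δ ≤ T ^ (q : ℝ) := Real.rpow_le_rpow_of_exponent_le g2 hq1.le
  have hTq : T ^ (q : ℝ) ≤ e * T := by
    have h3 : T ^ (q : ℝ) * T ^ (1 - (q : ℝ)) = T := by
      rw [← Real.rpow_add hTp]
      simp
    have h4 : T ^ (q : ℝ) * (1 / e) ≤ T := by
      calc T ^ (q : ℝ) * (1 / e) ≤ T ^ (q : ℝ) * T ^ (1 - (q : ℝ)) :=
            mul_le_mul_of_nonneg_left g3 (by positivity)
        _ = T := h3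
    rw [mul_one_div, div_le_iff₀ hpos] at h4
    linarith
  have hsize : e * T ≤ size t := by
    have h5 : |(numDen t i₀ : ℝ)| ≤ ∑ i, |(numDen t i : ℝ)| :=
      Finset.single_le_sum (f := fun i => |(numDen t i : ℝ)|) (fun i _ => abs_nonneg _) (Finset.mem_univ i₀)
    have h6 : T * |ξ i₀| - |(numDen t i₀ : ℝ)| ≤ T ^ δ := by
      have h7 := hnear i₀
      have h8 := abs_sub_abs_le_abs_sub (T * ξ i₀) (numDen t i₀ : ℝ)
      rw [abs_sub_comm, abs_mul, abs_of_pos hTp] at h8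
      linarith
    have h9 : T * |ξ i₀| = 2 * (e * T) := by
      rw [he]
      ring
    unfold size
    linarith
  by_contra hno
  refine hT₀ T g1 (numDen t) ⟨t, ⟨ht, fun hR => hno (rohrlich_mono hR ?_)⟩, rfl⟩ fun i => (hnear i).trans hTδ
  calc T ^ A = T ^ A * 1 := (mul_one _).symm
    _ ≤ T ^ A * (T * e ^ (A + 1)) := by
      refine mul_le_mul_of_nonneg_left ?_ (by positivity)
      rw [div_le_iff₀ (by positivity)] at g4
      exact g4
    _ = (e * T) ^ (A + 1) := by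
      rw [mul_pow]
      ring
    _ ≤ size t ^ (A + 1) := pow_le_pow_left₀ (by positivity) hsize _

end Pool.Agent.Results.MP_c2409d_nt.AlmostEveryDirection
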