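import Pool.Agent.Results.MP_c2409d_nt.ApproximationsOfRealTuples

/-!
# Rohrlich's conjecture at all the tuples of fractions with a common denominator near a real tuple

Rohrlich's conjecture concerns numbers `a_1, …, a_r` with a common denominator `D`. Let `a_i = c_i t_{j(i)} + x_i` be affine
functions with rational coefficients of `n` rational parameters (arguments with the same parameter are commensurable, so that
the identity may hold for all values of the parameters or not). We prove the open direction of the conjecture, for the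
multiples `α π ^ (r/2)` whose factor `α` is of bounded complexity over the numbers `e(t_k / N)` and `p ^ (t_k / N)`, for ALL the
tuples `t = (k_1 / D, …, k_n / D)` with `D` in a given set `𝒟` of integers and `|k_l - D y_l| ≤ D ^ δ`, from some `D` on, for
all real tuples `y` outside of ONE set of Hausdorff dimension at most `(n - 1 + κ) / (1 - δ)`, where `κ` is the exponent of
`𝒟` (there are at most `T ^ (κ + o(1))` elements up to `T`). The exceptional set is the same for all `r`, all affine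
functions and all bounds for the complexity.

* For sparse `𝒟` and `δ = 0`, for instance `k_l = ⌊D y_l⌋`: `κ = 0` and dimension at most `n - 1` for `D = 2 ^ m` or `D = m!`,
  `κ = 1 / 2` and dimension at most `n - 1 / 2` for `D = m ^ 2`; for almost all `y` one can take every `δ < (1 - κ) / n`.
* For the set `𝒟` of all the positive integers, `κ = 1`, and `δ < 0` one gets almost all `y`; for `- 1 / n < δ < 0` there are
  infinitely many such approximations `(k_1 / D, …, k_n / D)` of every `y` by the theorem of Dirichlet, among them all the best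
  simultaneous approximations.

The starting file `ApproximationsOfRealTuples` of this problem has arbitrary rational numbers `t_l` with denominators at most
`T` and `|y_l - t_l| ≤ T ^ (-τ)`, and for almost all `y` it needs `τ > 2 - 2 / n`; so for `n ≥ 2` it does not contain the tuples
`⌊D y_l⌋ / D` (`τ = 1`), and for `n ≥ 3` it does not contain the best simultaneous approximations (`τ = 1 + 1 / n`).

Proof: the starting theorem `CommensurableArguments` of this problem bounds the number of the exceptional tuples with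
entries in any finite set of rational numbers, here in the set of the fractions with denominator `D`; the Hausdorff-Cantelli
lemma (`Pool.Agent.N84.MD`).
-/

set_option autoImplicit false

open Set Filter MeasureTheory
open scoped ENNReal

namespace Pool.Agent.Results.MP_c2409d_nt.CommonDenominators

open Pool.Agent.Results.MP_c2409d_nt.CommensurableArguments (args Identity Simple Exceptional)
open Pool.Agent.Results.MP_c2409d_nt.ApproximationsOfRealTuples (Rohrlich)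

/-- The set of integers `𝒟` has exponent at most `κ`: for all `ε > 0` it has at most `C T ^ (κ + ε)` positive elements up
to `T`, for all `T ≥ 1`. -/
def Exponent (𝒟 : Set ℕ) (κ : ℝ) : Prop :=
  ∀ ε : ℝ, 0 < ε → ∃ C : ℝ, ∀ T : ℕ, 0 < T → ({D : ℕ | D ∈ 𝒟 ∧ 0 < D ∧ D ≤ T}.ncard : ℝ) ≤ C * (T : ℝ) ^ (κ + ε)

/-- No number `c_i s + x_i` with real `s` in `[a, b]` is a pole of the gamma function. -/
def NoPoles {r : ℕ} (c x : Fin r → ℚ) (a b : ℚ) : Prop :=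
  ∀ i (s : ℝ), (a : ℝ) ≤ s → s ≤ (b : ℝ) → ∀ k : ℕ, (c i : ℝ) * s + x i ≠ -k

/-- For all numbers `a_i = c_i t_{j(i)} + x_i` without poles for `t` in `[a, b]`, all `N ≥ 1`, `B`, `d`, `A` and all large
`D` in `𝒟`: the open direction of the conjecture holds, for factors which are simple with coefficients at most `D ^ A`, at all
the tuples `t = (k_1 / D, …, k_n / D)` with entries in `[a, b]` and `|k_l - D y_l| ≤ D ^ δ`. -/
def AllNumerators {n : ℕ} (𝒟 : Set ℕ) (δ : ℝ) (y : Fin n → ℝ) : Prop :=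
  ∀ (r : ℕ) (c x : Fin r → ℚ) (j : Fin r → Fin n) (a b : ℚ), (∀ i, c i ≠ 0) → NoPoles c x a b →
    ∀ N B d A : ℕ, 0 < N → ∃ D₀ : ℕ, ∀ D ∈ 𝒟, D₀ ≤ D → ∀ k : Fin n → ℤ,
      (∀ l, a ≤ (k l : ℚ) / D ∧ (k l : ℚ) / D ≤ b) → (∀ l, |(k l : ℝ) - D * y l| ≤ (D : ℝ) ^ δ) →
        Rohrlich c x j N B d ((D : ℝ) ^ A) fun l => (k l : ℚ) / D

/-- a smaller `δ` is weaker -/
theorem AllNumerators.mono {n : ℕ} {𝒟 : Set ℕ} {δ δ' : ℝ} {y : Fin n → ℝ} (h : AllNumerators 𝒟 δ y) (hδ : δ' ≤ δ) :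
    AllNumerators 𝒟 δ' y := by
  intro r c x j a b hc hp N B d A hN
  obtain ⟨D₀, h1⟩ := h r c x j a b hc hp N B d A hN
  refine ⟨max D₀ 1, fun D hD hD0 k h2 h3 => h1 D hD ((le_max_left _ _).trans hD0) k h2 fun l => (h3 l).trans ?_⟩
  have h4 : (1 : ℝ) ≤ D := by exact_mod_cast (le_max_right _ _).trans hD0
  exact Real.rpow_le_rpow_of_exponent_le h4 hδ

/-- the fractions with denominator `D` in `[a, b]` -/
noncomputable def fracs (a b : ℚ) (D : ℕ) : Finset ℚ :=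
  (Finset.Icc ⌈a * D⌉ ⌊b * D⌋).image fun k : ℤ => (k : ℚ) / D

theorem mem_fracs {a b : ℚ} {D : ℕ} (hD : 0 < D) {k : ℤ} (h1 : a ≤ (k : ℚ) / D) (h2 : (k : ℚ) / D ≤ b) :
    (k : ℚ) / D ∈ fracs a b D := by
  have h3 : (0 : ℚ) < D := by exact_mod_cast hD
  rw [fracs, Finset.mem_image]
  refine ⟨k, ?_, rfl⟩
  rw [Finset.mem_Icc, Int.ceil_le, Int.le_floor]
  exact ⟨by rwa [le_div_iff₀ h3] at h1, by rwa [div_le_iff₀ h3] at h2⟩

theorem fracs_spec {a b : ℚ} {D : ℕ} (hD : 0 < D) {q : ℚ} (h : q ∈ fracs a b D) :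
    (a : ℝ) ≤ q ∧ (q : ℝ) ≤ b ∧ q.den ≤ D := by
  have h3 : (0 : ℚ) < D := by exact_mod_cast hD
  rw [fracs, Finset.mem_image] at h
  obtain ⟨k, hk, rfl⟩ := h
  rw [Finset.mem_Icc, Int.ceil_le, Int.le_floor] at hk
  refine ⟨?_, ?_, ?_⟩
  · have : a ≤ (k : ℚ) / D := by rw [le_div_iff₀ h3]; exact hk.1
    exact_mod_cast this
  · have : (k : ℚ) / D ≤ b := by rw [div_le_iff₀ h3]; exact hk.2
    exact_mod_cast this
  · refine Nat.le_of_dvd hD ?_
    have h4 : (k : ℚ) / D = Rat.divInt k D := by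
      rw [Rat.divInt_eq_div]
      push_cast
      rfl
    rw [h4]
    have h5 := Rat.den_dvd k D
    exact_mod_cast h5

theorem card_fracs (a b : ℚ) {D : ℕ} (hD : 0 < D) :
    ((fracs a b D).card : ℝ) ≤ (|(a : ℝ)| + |(b : ℝ)| + 1) * D := by
  have h1 : (fracs a b D).card ≤ (Finset.Icc ⌈a * D⌉ ⌊b * D⌋).card := Finset.card_image_le
  rw [Int.card_Icc] at h1
  have hDr : (1 : ℝ) ≤ D := by exact_mod_cast hD
  have h2 : (((⌊b * D⌋ + 1 - ⌈a * D⌉).toNat : ℕ) : ℝ) ≤ (|(a : ℝ)| + |(b : ℝ)| + 1) * D := by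
    rcases le_or_gt (⌊b * D⌋ + 1 - ⌈a * D⌉) 0 with h3 | h3
    · rw [Int.toNat_of_nonpos h3]
      push_cast
      positivity
    · have h4 : (((⌊b * D⌋ + 1 - ⌈a * D⌉).toNat : ℕ) : ℝ) = ((⌊b * D⌋ + 1 - ⌈a * D⌉ : ℤ) : ℝ) := by
        have h5 := Int.toNat_of_nonneg h3.le
        exact_mod_cast congrArg (fun z : ℤ => (z : ℝ)) h5
      rw [h4]
      push_cast
      have h5 : ((⌊b * D⌋ : ℤ) : ℝ) ≤ b * D := by exact_mod_cast Int.floor_le (b * (D : ℚ))
      have h6 : (a : ℝ) * D ≤ ((⌈a * D⌉ : ℤ) : ℝ) := by exact_mod_cast Int.le_ceil (a * (D : ℚ))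
      have h7 : (b : ℝ) * D ≤ |(b : ℝ)| * D := mul_le_mul_of_nonneg_right (le_abs_self _) (by positivity)
      have h8 : -(|(a : ℝ)| * D) ≤ (a : ℝ) * D := by
        rw [← neg_mul]
        exact mul_le_mul_of_nonneg_right (neg_abs_le _) (by positivity)
      nlinarith
  exact (Nat.cast_le.2 h1).trans h2

/-- the exceptional tuples with a common denominator in `𝒟`, at the scale `T` -/
def Bad {n r : ℕ} (𝒟 : Set ℕ) (c x : Fin r → ℚ) (j : Fin r → Fin n) (a b : ℚ) (N B d A : ℕ) (T : ℝ) : Set (Fin n → ℚ) :=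
  {t | ∃ D ∈ 𝒟, 0 < D ∧ (D : ℝ) ≤ T ∧ (∀ l, t l ∈ fracs a b D) ∧ ¬ Rohrlich c x j N B d (T ^ (A : ℝ)) t}

theorem bad_mono {n r : ℕ} (𝒟 : Set ℕ) (c x : Fin r → ℚ) (j : Fin r → Fin n) (a b : ℚ) (N B d A : ℕ) {T T' : ℝ}
    (hT : 1 ≤ T) (h : T ≤ T') : Bad 𝒟 c x j a b N B d A T ⊆ Bad 𝒟 c x j a b N B d A T' := by
  rintro t ⟨D, hD, hD0, h1, h2, h3⟩
  refine ⟨D, hD, hD0, h1.trans h, h2, fun h4 => h3 ?_⟩
  intro α h5 h6
  refine h4 α h5 ?_
  obtain ⟨P, h7, h8, h9, h10⟩ := h6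
  exact ⟨P, h7, h8, fun s => (h9 s).trans (Real.rpow_le_rpow (by linarith) h (Nat.cast_nonneg A)), h10⟩

theorem bad_count {n r : ℕ} (hn : 1 ≤ n) (𝒟 : Set ℕ) (κ : ℝ) (hκ : 0 ≤ κ) (h𝒟 : Exponent 𝒟 κ) (c x : Fin r → ℚ)
    (j : Fin r → Fin n) (a b : ℚ) (hc : ∀ i, c i ≠ 0) (hp : NoPoles c x a b) (N B d A : ℕ) (hN : 0 < N) (ε : ℝ)
    (hε : 0 < ε) : ∃ C T₀ : ℝ, ∀ T : ℝ, T₀ ≤ T → (Bad 𝒟 c x j a b N B d A T).Finite ∧
      ((Bad 𝒟 c x j a b N B d A T).ncard : ℝ) ≤ C * T ^ ((n : ℝ) - 1 + κ + ε) := by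
  classical
  obtain ⟨C₁, hC₁⟩ := h𝒟 (ε / 2) (by linarith)
  obtain ⟨C, T₀, H⟩ := Pool.Agent.Results.MP_c2409d_nt.CommensurableArguments.result n r c hc x j a b hp N B d hN
    A (ε / 2) (by linarith)
  set K : ℝ := |(a : ℝ)| + |(b : ℝ)| + 1 with hK
  have hK0 : 0 ≤ K := by positivity
  refine ⟨|C₁| * (|C| * K ^ (n - 1)), max T₀ 1, fun T hT => ?_⟩
  have hT1 : 1 ≤ T := (le_max_right _ _).trans hT
  have hT0 : 0 < T := by linarith
  set P : Finset ℕ := (Finset.Icc 1 ⌊T⌋₊).filter (· ∈ 𝒟) with hP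
  let E : ℕ → Set (Fin n → ℚ) := fun D => Exceptional c x j N B d (T ^ (A : ℝ)) (fracs a b D)
  have hE : ∀ D ∈ P, (E D).Finite ∧ ((E D).ncard : ℝ) ≤ |C| * T ^ (ε / 2) * (K * T) ^ (n - 1) := by
    intro D hD
    rw [hP, Finset.mem_filter, Finset.mem_Icc] at hD
    have hD0 : 0 < D := hD.1.1
    have hDT : (D : ℝ) ≤ T := (Nat.cast_le.2 hD.1.2).trans (Nat.floor_le hT0.le)
    obtain ⟨h1, h2⟩ := H T ((le_max_left _ _).trans hT) (fracs a b D) fun q hq => by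
      obtain ⟨h3, h4, h5⟩ := fracs_spec hD0 hq
      exact ⟨h3, h4, (Nat.cast_le.2 h5).trans hDT⟩
    refine ⟨h1, h2.trans ?_⟩
    have h3 : ((fracs a b D).card : ℝ) ^ (n - 1) ≤ (K * T) ^ (n - 1) := by
      refine pow_le_pow_left₀ (Nat.cast_nonneg _) ((card_fracs a b hD0).trans ?_) _
      exact mul_le_mul_of_nonneg_left hDT hK0
    exact mul_le_mul (mul_le_mul_of_nonneg_right (le_abs_self C) (by positivity)) h3 (by positivity)
      (by positivity)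
  have hsub : Bad 𝒟 c x j a b N B d A T ⊆ ⋃ D ∈ P, E D := by
    rintro t ⟨D, hD, hD0, h1, h2, h3⟩
    unfold Rohrlich at h3
    push Not at h3
    obtain ⟨α, h6, h7, h8⟩ := h3
    refine Set.mem_iUnion₂.2 ⟨D, ?_, h2, h8, α, h6, h7⟩
    rw [hP, Finset.mem_filter, Finset.mem_Icc]
    exact ⟨⟨hD0, Nat.le_floor h1⟩, hD⟩
  have hfin : (⋃ D ∈ P, E D).Finite := P.finite_toSet.biUnion fun D hD => (hE D hD).1
  refine ⟨hfin.subset hsub, ?_⟩
  have h1 : ((Bad 𝒟 c x j a b N B d A T).ncard : ℝ) ≤ ∑ D ∈ P, ((E D).ncard : ℝ) := by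
    have h2 : (Bad 𝒟 c x j a b N B d A T).ncard ≤ ∑ D ∈ P, (E D).ncard :=
      (Set.ncard_le_ncard hsub hfin).trans (Finset.set_ncard_biUnion_le P E)
    exact_mod_cast h2
  have h2 : ∑ D ∈ P, ((E D).ncard : ℝ) ≤ P.card * (|C| * T ^ (ε / 2) * (K * T) ^ (n - 1)) := by
    rw [← nsmul_eq_mul]
    exact Finset.sum_le_card_nsmul _ _ _ fun D hD => (hE D hD).2
  have hfl : 0 < ⌊T⌋₊ := Nat.floor_pos.2 hT1
  have h3 : (P.card : ℝ) ≤ |C₁| * T ^ (κ + ε / 2) := by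
    have h4 : P.card ≤ {D : ℕ | D ∈ 𝒟 ∧ 0 < D ∧ D ≤ ⌊T⌋₊}.ncard := by
      rw [← Set.ncard_coe_finset]
      refine Set.ncard_le_ncard ?_ ((Set.finite_Iic ⌊T⌋₊).subset fun D hD => hD.2.2)
      intro D hD
      rw [hP, Finset.coe_filter, Set.mem_ofPred_eq, Finset.mem_Icc] at hD
      exact ⟨hD.2, hD.1.1, hD.1.2⟩
    calc (P.card : ℝ) ≤ ({D : ℕ | D ∈ 𝒟 ∧ 0 < D ∧ D ≤ ⌊T⌋₊}.ncard : ℝ) := by exact_mod_cast h4
      _ ≤ C₁ * (⌊T⌋₊ : ℝ) ^ (κ + ε / 2) := hC₁ _ hfl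
      _ ≤ |C₁| * T ^ (κ + ε / 2) := by
        refine mul_le_mul (le_abs_self _) ?_ (by positivity) (abs_nonneg _)
        exact Real.rpow_le_rpow (Nat.cast_nonneg _) (Nat.floor_le hT0.le) (by positivity)
  refine h1.trans (h2.trans ?_)
  have h4 : T ^ ((n : ℝ) - 1 + κ + ε) = T ^ (κ + ε / 2) * (T ^ (ε / 2) * T ^ (n - 1)) := by
    rw [← Real.rpow_natCast T (n - 1), ← Real.rpow_add hT0, ← Real.rpow_add hT0]
    congr 1
    push_cast [Nat.cast_sub hn]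
    ring
  calc (P.card : ℝ) * (|C| * T ^ (ε / 2) * (K * T) ^ (n - 1))
      ≤ |C₁| * T ^ (κ + ε / 2) * (|C| * T ^ (ε / 2) * (K * T) ^ (n - 1)) :=
        mul_le_mul_of_nonneg_right h3 (by positivity)
    _ = |C₁| * (|C| * K ^ (n - 1)) * T ^ ((n : ℝ) - 1 + κ + ε) := by
        rw [h4, mul_pow]
        ring

theorem piece {n r : ℕ} (hn : 1 ≤ n) (𝒟 : Set ℕ) (κ : ℝ) (hκ : 0 ≤ κ) (h𝒟 : Exponent 𝒟 κ) (δ : ℝ) (hδ : δ < 1)
    (c x : Fin r → ℚ) (j : Fin r → Fin n) (a b : ℚ) (hc : ∀ i, c i ≠ 0) (hp : NoPoles c x a b) (N B d A : ℕ)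
    (hN : 0 < N) : dimH {y : Fin n → ℝ | ¬ ∃ D₀ : ℕ, ∀ D ∈ 𝒟, D₀ ≤ D → ∀ k : Fin n → ℤ,
      (∀ l, a ≤ (k l : ℚ) / D ∧ (k l : ℚ) / D ≤ b) → (∀ l, |(k l : ℝ) - D * y l| ≤ (D : ℝ) ^ δ) →
        Rohrlich c x j N B d ((D : ℝ) ^ A) fun l => (k l : ℚ) / D} ≤ ENNReal.ofReal (((n : ℝ) - 1 + κ) / (1 - δ)) := by
  have hn' : (1 : ℝ) ≤ n := by exact_mod_cast hn
  have h := Pool.Agent.N84.MD.scales_eps (X := Fin n) (S := Fin n → ℚ) (fun t l => (t l : ℝ))
    (Bad 𝒟 c x j a b N B d A) (Bad 𝒟 c x j a b N B d A) (s := (n : ℝ) - 1 + κ) (τ := 1 - δ) (by linarith) (by linarith)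
    ⟨1, fun T T' hT h1 _ => bad_mono 𝒟 c x j a b N B d A hT h1⟩
    (bad_count hn 𝒟 κ hκ h𝒟 c x j a b hc hp N B d A hN)
  refine le_trans (dimH_mono ?_) h
  intro y hy hev
  apply hy
  obtain ⟨T₁, hT₁⟩ := eventually_atTop.1 hev
  obtain ⟨m, hm⟩ := exists_nat_ge T₁
  refine ⟨max m 1, fun D hD hD0 k h1 h2 => ?_⟩
  have hD1 : 0 < D := (le_max_right _ _).trans hD0
  have hDr : (0 : ℝ) < D := by exact_mod_cast hD1
  have hmD : (m : ℝ) ≤ D := by exact_mod_cast (le_max_left _ _).trans hD0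
  by_contra hno
  refine hT₁ D (hm.trans hmD) (fun l => (k l : ℚ) / D)
    ⟨D, hD, hD1, le_rfl, fun l => mem_fracs hD1 (h1 l).1 (h1 l).2, ?_⟩ fun l => ?_
  · rwa [Real.rpow_natCast]
  · push_cast
    have e : y l - (k l : ℝ) / D = -(((k l : ℝ) - D * y l) / D) := by
      field_simp
      ring
    rw [e, abs_neg, abs_div, abs_of_pos hDr, div_le_iff₀ hDr]
    have e2 : (D : ℝ) ^ (-(1 - δ)) * D = (D : ℝ) ^ δ := by
      rw [← Real.rpow_add_one hDr.ne']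
      congr 1
      ring
    rw [e2]
    exact h2 l

/-- **Rohrlich's conjecture (open direction, simple factors) at the fractions with a common denominator.** Let `𝒟` be a set
of integers of exponent at most `κ`. The property `AllNumerators 𝒟 δ` holds for all real tuples `y` but a set of Hausdorff
dimension at most `(n - 1 + κ) / (1 - δ)`, for `δ < 1`, and for almost all `y` it holds for all `δ` with
`n - 1 + κ < n (1 - δ)`. -/
theorem result (n : ℕ) (hn : 1 ≤ n) (𝒟 : Set ℕ) (κ : ℝ) (hκ : 0 ≤ κ) (h𝒟 : Exponent 𝒟 κ) :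
    (∀ δ : ℝ, δ < 1 →
      dimH {y : Fin n → ℝ | ¬ AllNumerators 𝒟 δ y} ≤ ENNReal.ofReal (((n : ℝ) - 1 + κ) / (1 - δ))) ∧
    ∀ᵐ y : Fin n → ℝ, ∀ δ : ℝ, (n : ℝ) - 1 + κ < n * (1 - δ) → AllNumerators 𝒟 δ y := by
  have hn' : (1 : ℝ) ≤ n := by exact_mod_cast hn
  have main : ∀ δ : ℝ, δ < 1 →
      dimH {y : Fin n → ℝ | ¬ AllNumerators 𝒟 δ y} ≤ ENNReal.ofReal (((n : ℝ) - 1 + κ) / (1 - δ)) := by
    intro δ hδ
    have hsub : {y : Fin n → ℝ | ¬ AllNumerators 𝒟 δ y} ⊆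
        ⋃ v : Σ r : ℕ, (Fin r → ℚ) × (Fin r → ℚ) × (Fin r → Fin n) × ℚ × ℚ × ℕ × ℕ × ℕ × ℕ,
          {y : Fin n → ℝ | ((∀ i, v.2.1 i ≠ 0) ∧ NoPoles v.2.1 v.2.2.1 v.2.2.2.2.1 v.2.2.2.2.2.1 ∧
            0 < v.2.2.2.2.2.2.1) ∧ ¬ ∃ D₀ : ℕ, ∀ D ∈ 𝒟, D₀ ≤ D → ∀ k : Fin n → ℤ,
              (∀ l, v.2.2.2.2.1 ≤ (k l : ℚ) / D ∧ (k l : ℚ) / D ≤ v.2.2.2.2.2.1) →
              (∀ l, |(k l : ℝ) - D * y l| ≤ (D : ℝ) ^ δ) →
                Rohrlich v.2.1 v.2.2.1 v.2.2.2.1 v.2.2.2.2.2.2.1 v.2.2.2.2.2.2.2.1 v.2.2.2.2.2.2.2.2.1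
                  ((D : ℝ) ^ v.2.2.2.2.2.2.2.2.2) fun l => (k l : ℚ) / D} := by
      intro y hy
      rw [Set.mem_ofPred_eq] at hy
      unfold AllNumerators at hy
      push Not at hy
      obtain ⟨r, c, x, j, a, b, hc, hp, N, B, d, A, hN, h1⟩ := hy
      rw [Set.mem_iUnion]
      refine ⟨⟨r, c, x, j, a, b, N, B, d, A⟩, ⟨hc, hp, hN⟩, ?_⟩
      push Not
      exact h1
    refine le_trans (dimH_mono hsub) ?_
    rw [dimH_iUnion]
    refine iSup_le ?_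
    rintro ⟨r, c, x, j, a, b, N, B, d, A⟩
    by_cases hv : (∀ i, c i ≠ 0) ∧ NoPoles c x a b ∧ 0 < N
    · refine le_trans (dimH_mono ?_) (piece hn 𝒟 κ hκ h𝒟 δ hδ c x j a b hv.1 hv.2.1 N B d A hv.2.2)
      rintro y ⟨-, h1⟩
      exact h1
    · refine le_trans (dimH_mono (t := ∅) ?_) (by rw [dimH_empty]; exact zero_le)
      rintro y ⟨h1, -⟩
      exact absurd h1 hv
  refine ⟨main, ?_⟩
  have h1 : ∀ q : ℚ, ∀ᵐ y : Fin n → ℝ, (n : ℝ) - 1 + κ < n * (1 - (q : ℝ)) → AllNumerators 𝒟 (q : ℝ) y := by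
    intro q
    by_cases hq : (n : ℝ) - 1 + κ < n * (1 - (q : ℝ))
    · have hq1 : (q : ℝ) < 1 := by
        by_contra hcon
        push Not at hcon
        nlinarith
      have h2 : ∀ᵐ y : Fin n → ℝ, AllNumerators 𝒟 (q : ℝ) y := by
        rw [ae_iff]
        refine Pool.Agent.N84.MD.null_of_dim (main q hq1) (div_nonneg (by linarith) (by linarith)) ?_
        rw [div_lt_iff₀ (by linarith)]
        exact hq
      filter_upwards [h2] with y hy _
      exact hy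
    · exact Filter.Eventually.of_forall fun y h => absurd h hq
  filter_upwards [ae_all_iff.2 h1] with y hy
  intro δ hδ
  have hδ' : δ < 1 - ((n : ℝ) - 1 + κ) / n := by
    have : ((n : ℝ) - 1 + κ) / n < 1 - δ := by
      rw [div_lt_iff₀ (by linarith)]
      linarith
    linarith
  obtain ⟨q, hq1, hq2⟩ := exists_rat_btwn hδ'
  refine (hy q ?_).mono hq1.le
  have : ((n : ℝ) - 1 + κ) / n < 1 - q := by linarith
  rw [div_lt_iff₀ (by linarith)] at this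
  linarith

end Pool.Agent.Results.MP_c2409d_nt.CommonDenominators
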