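import Pool.Agent.L5helper71.GaRel

/-!
# Rohrlich's conjecture for almost all products of many gamma values, with factors `α` of any degree

Let `D_1, …, D_r ≥ 3`. For all but a proportion `C (1 + log H) / √r` of the `r`-tuples of fractions
`a_i = k_i / D_i`, `0 < k_i < D_i`, both sides of Rohrlich's equivalence fail, if the algebraic factor `α` has
height at most `H`: the product `Γ(a_1) ⋯ Γ(a_r)` is not `α π ^ (r / 2)` for any root `α` of any nonzero integer
polynomial with coefficients of absolute value at most `H` (its degree is arbitrary), and the identity for the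
fractional parts fails. So for `H = exp (ε √r)` the equivalence holds for almost all tuples. `C` is an absolute
constant; `r` and the `D_i` are arbitrary.

More generally let the `F_i` be finite sets of rational numbers in `(0, 1)`, and `Q > 0` a lower bound for the
sum of the proportions of the pairs of elements of `F_i` with distance at least `η`. The products
`∏ Γ(a_i) ^ (e_i)` of the tuples of `∏ F_i` are spread out on the logarithmic scale. Hence almost all the tuples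
satisfy no relation between given monomials in the numbers `Γ(a_i)`, multiplied by arbitrary positive real
numbers (for instance powers of `π`), with algebraic coefficients of height at most `H`; and every dense set of
tuples contains a large set of tuples the products of which satisfy no linear relation with such coefficients.

Proof. `log Γ` decreases on `(0, 1]` with slope at least `1/5` (convexity), so that the theorem of Littlewood,
Offord and Erdős applies to `∑ e_i log Γ(a_i)` when each `a_i` is chosen from a random pair of elements of `F_i`.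
A nonzero algebraic number of height at most `H` has absolute value between `1 / (H + 1)` and `H + 1`, and in a
sum of terms of very different sizes the largest one dominates.
-/

set_option autoImplicit false

namespace Pool.Agent.Results.MP_c2409d_nt.GrowingProducts

open Finset Pool.Agent.L5helper71.GL

/-- the proportion of the pairs of elements of `S` which have a distance of at least `η` -/
noncomputable def far (S : Finset ℚ) (η : ℝ) : ℝ :=
  (#{p ∈ S ×ˢ S | η ≤ |(p.1 : ℝ) - p.2|} : ℝ) / (#S : ℝ) ^ 2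

/-- `α` is a root of a nonzero integer polynomial with coefficients of absolute value at most `H` -/
def HeightLe (H : ℕ) (α : ℂ) : Prop :=
  ∃ P : Polynomial ℤ, P ≠ 0 ∧ (∀ i, |P.coeff i| ≤ H) ∧ Polynomial.aeval α P = 0

/-- the product of the numbers `Γ(a_i) ^ (e_i)` -/
noncomputable def val {r : ℕ} (e : Fin r → ℤ) (a : Fin r → ℚ) : ℝ := ∏ i, Real.Gamma (a i) ^ e i

/-- Rohrlich's identity for the fractional parts, for the denominator `N` -/
def FracIdentity {r : ℕ} (N : ℕ) (a : Fin r → ℚ) : Prop :=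
  ∀ m : ℕ, 1 ≤ m → m < N → m.Coprime N → ∑ i, Int.fract ((m : ℚ) * a i) = (r : ℚ) / 2

lemma far_eq (S : Finset ℚ) (η : ℝ) : far S η = fr S η := by
  classical
  unfold far fr prop
  congr

lemma log_H {H : ℕ} (hH : 1 ≤ H) : Real.log (1 + 2 * ((H : ℝ) + 1) ^ 2) ≤ 9 / 4 + 2 * Real.log H := by
  have hH1 : (1 : ℝ) ≤ H := by exact_mod_cast hH
  have h1 : 1 + 2 * ((H : ℝ) + 1) ^ 2 ≤ 9 * (H : ℝ) ^ 2 := by nlinarith
  have h2 : Real.log (1 + 2 * ((H : ℝ) + 1) ^ 2) ≤ Real.log (9 * (H : ℝ) ^ 2) := Real.log_le_log (by positivity) h1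
  rw [Real.log_mul (by norm_num) (by positivity), Real.log_pow] at h2
  have h3 : Real.log 9 ≤ 9 / 4 := by
    have h4 : Real.log (9 / 8) ≤ 1 / 8 := by
      have := Real.log_le_sub_one_of_pos (x := 9 / 8) (by norm_num)
      linarith
    have h5 : Real.log 8 = 3 * Real.log 2 := by
      rw [show (8 : ℝ) = 2 ^ 3 by norm_num, Real.log_pow]
      norm_num
    have h6 : Real.log 9 = Real.log 8 + Real.log (9 / 8) := by
      rw [← Real.log_mul (by norm_num) (by norm_num)]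
      norm_num
    have := Real.log_two_lt_d9
    rw [h6, h5]
    linarith
  push_cast at h2
  linarith

section main

variable {r : ℕ} {F : Fin r → Finset ℚ} {η Q : ℝ}

open Classical in
theorem small_ball (hF : ∀ i, ∀ x ∈ F i, 0 < x ∧ x < 1) (hη : 0 < η) (hη1 : η ≤ 1) (hQ : 0 < Q)
    (e : Fin r → ℤ) (hQF : Q ≤ ∑ i with e i ≠ 0, far (F i) η) {y L : ℝ} (hy : 0 < y) (hL : 0 ≤ L) :
    (#{a ∈ Fintype.piFinset F | y ≤ val e a ∧ val e a ≤ Real.exp L * y} : ℝ) * √Q ≤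
      30 * (1 + L) / η * ∏ i, (#(F i) : ℝ) := by
  simp only [far_eq] at hQF
  have h1 := window hF hη hη1 hQ (R := L / 2) (by positivity) e hQF (Real.log y + L / 2)
  have h2 : #{a ∈ Fintype.piFinset F | y ≤ val e a ∧ val e a ≤ Real.exp L * y} ≤
      #((Fintype.piFinset F).filter (fun a => |Real.log (∏ i, Real.Gamma (a i : ℝ) ^ e i) - (Real.log y + L / 2)| ≤ L / 2)) := by
    refine card_le_card fun a ha => ?_
    rw [mem_filter] at ha ⊢
    refine ⟨ha.1, ?_⟩
    have h3 := (log_prod hF ha.1 e).1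
    have h4 : Real.log y ≤ Real.log (∏ i, Real.Gamma (a i : ℝ) ^ e i) := Real.log_le_log hy ha.2.1
    have h5 : Real.log (∏ i, Real.Gamma (a i : ℝ) ^ e i) ≤ Real.log (Real.exp L * y) := Real.log_le_log h3 ha.2.2
    rw [Real.log_mul (Real.exp_pos _).ne' hy.ne', Real.log_exp] at h5
    rw [abs_le]
    constructor <;> linarith
  have h3 : (#{a ∈ Fintype.piFinset F | y ≤ val e a ∧ val e a ≤ Real.exp L * y} : ℝ) * √Q ≤
      30 * (1 + L / 2) / η * ∏ i, (#(F i) : ℝ) :=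
    (mul_le_mul_of_nonneg_right (by exact_mod_cast h2) (Real.sqrt_nonneg _)).trans h1
  refine h3.trans (mul_le_mul_of_nonneg_right ?_ (prod_nonneg fun i _ => Nat.cast_nonneg _))
  refine div_le_div_of_nonneg_right ?_ hη.le
  linarith

lemma height_bounds {H : ℕ} {α : ℂ} (h : HeightLe H α) (hα : α ≠ 0) :
    1 / ((H : ℝ) + 1) ≤ ‖α‖ ∧ ‖α‖ ≤ (H : ℝ) + 1 := ⟨algH_ge h hα, algH_le h⟩

open Classical in
theorem relations (hF : ∀ i, ∀ x ∈ F i, 0 < x ∧ x < 1) (hη : 0 < η) (hη1 : η ≤ 1) (hQ : 0 < Q)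
    (M : Finset (Fin r → ℤ)) (β : (Fin r → ℤ) → ℝ) (hβ : ∀ m ∈ M, 0 < β m)
    (hM : ∀ m ∈ M, ∀ m' ∈ M, m ≠ m' → Q ≤ ∑ i with m i ≠ m' i, far (F i) η) {H : ℕ} (hH : 1 ≤ H) :
    (#{a ∈ Fintype.piFinset F | ¬ ∀ c : (Fin r → ℤ) → ℂ, (∀ m ∈ M, HeightLe H (c m)) → ∀ m ∈ M,
      ‖c m‖ * (β m * val m a) / 2 ≤ ‖∑ m' ∈ M, c m' * ((β m' * val m' a : ℝ) : ℂ)‖} : ℝ) * √Q ≤
      100 * (1 + Real.log H) * (#M : ℝ) ^ 2 / η * ∏ i, (#(F i) : ℝ) := by
  obtain ⟨Λ, hΛ⟩ : ∃ Λ : ℝ, Λ = Real.log (1 + 2 * ((H : ℝ) + 1) ^ 2) := ⟨_, rfl⟩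
  have hH1 : (1 : ℝ) ≤ H := by exact_mod_cast hH
  have hΛ0 : 0 ≤ Λ := by
    rw [hΛ]
    exact Real.log_nonneg (by nlinarith)
  have hΛ1 : Λ ≤ 9 / 4 + 2 * Real.log H := by
    rw [hΛ]
    exact log_H hH
  have hlH : 0 ≤ Real.log H := Real.log_nonneg hH1
  obtain ⟨N, hN⟩ : ∃ N : ℝ, N = ∏ i, (#(F i) : ℝ) := ⟨_, rfl⟩
  have hN0 : 0 ≤ N := by
    rw [hN]
    exact prod_nonneg fun i _ => Nat.cast_nonneg _
  obtain ⟨W, hW⟩ : ∃ W : (Fin r → ℤ) × (Fin r → ℤ) → Finset (Fin r → ℚ), W = fun p =>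
    (Fintype.piFinset F).filter (fun a => |Real.log (∏ i, Real.Gamma (a i : ℝ) ^ (p.1 i - p.2 i)) -
      (Real.log (β p.2) - Real.log (β p.1))| ≤ Λ) := ⟨_, rfl⟩
  obtain ⟨B, hB⟩ : ∃ B : Finset (Fin r → ℚ), B = {a ∈ Fintype.piFinset F | ¬ ∀ c : (Fin r → ℤ) → ℂ,
      (∀ m ∈ M, HeightLe H (c m)) → ∀ m ∈ M,
      ‖c m‖ * (β m * val m a) / 2 ≤ ‖∑ m' ∈ M, c m' * ((β m' * val m' a : ℝ) : ℂ)‖} := ⟨_, rfl⟩
  rw [← hB, ← hN]
  have hsub : B ⊆ ((M ×ˢ M).filter (fun p => p.1 ≠ p.2)).biUnion W := by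
    intro a ha
    rw [hB, mem_filter] at ha
    by_contra hno
    refine ha.2 fun c hc m hm => ?_
    have hpos : ∀ m ∈ M, 0 < β m * val m a := fun m hm => mul_pos (hβ m hm) (log_prod hF ha.1 m).1
    refine dominate (T := fun m => β m * val m a) (K := (H : ℝ) + 1) (by linarith) M hpos ?_ c
      (fun m hm h0 => height_bounds (hc m hm) h0) hm
    intro m1 hm1 m2 hm2 hne hle
    by_contra hcon
    rw [not_le] at hcon
    refine hno ?_
    rw [mem_biUnion]
    refine ⟨(m1, m2), ?_, ?_⟩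
    · rw [mem_filter, mem_product]
      exact ⟨⟨hm1, hm2⟩, hne⟩
    · rw [hW, mem_filter]
      refine ⟨ha.1, ?_⟩
      have h1 := log_prod hF ha.1 m1
      have h2 := log_prod hF ha.1 m2
      have h3 := log_prod hF ha.1 (fun i => m1 i - m2 i)
      have e : Real.log (∏ i, Real.Gamma (a i : ℝ) ^ (m1 i - m2 i)) = Real.log (val m1 a) - Real.log (val m2 a) := by
        unfold val
        rw [h3.2, h1.2, h2.2, ← sum_sub_distrib]
        refine sum_congr rfl fun i _ => ?_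
        push_cast
        ring
      have hl1 : Real.log (β m1 * val m1 a) = Real.log (β m1) + Real.log (val m1 a) :=
        Real.log_mul (hβ m1 hm1).ne' h1.1.ne'
      have hl2 : Real.log (β m2 * val m2 a) = Real.log (β m2) + Real.log (val m2 a) :=
        Real.log_mul (hβ m2 hm2).ne' h2.1.ne'
      have h4 : Real.log (β m1 * val m1 a) ≤ Real.log (β m2 * val m2 a) := Real.log_le_log (hpos m1 hm1) hle
      have h5 : Real.log (β m2 * val m2 a) ≤ Real.log ((1 + 2 * ((H : ℝ) + 1) ^ 2) * (β m1 * val m1 a)) :=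
        Real.log_le_log (hpos m2 hm2) hcon.le
      rw [Real.log_mul (by positivity) (hpos m1 hm1).ne', ← hΛ] at h5
      show |Real.log (∏ i, Real.Gamma (a i : ℝ) ^ (m1 i - m2 i)) - (Real.log (β m2) - Real.log (β m1))| ≤ Λ
      rw [e, abs_le]
      constructor <;> linarith
  have hcard : (#B : ℝ) ≤ ∑ p ∈ (M ×ˢ M).filter (fun p => p.1 ≠ p.2), (#(W p) : ℝ) := by
    exact_mod_cast (card_le_card hsub).trans card_biUnion_le
  have hone : ∀ p ∈ (M ×ˢ M).filter (fun p => p.1 ≠ p.2), (#(W p) : ℝ) * √Q ≤ 100 * (1 + Real.log H) / η * N := by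
    intro p hp
    rw [mem_filter, mem_product] at hp
    have h1 := hM p.1 hp.1.1 p.2 hp.1.2 hp.2
    simp only [far_eq] at h1
    have h2 := window hF hη hη1 hQ (R := Λ) hΛ0 (fun i => p.1 i - p.2 i) (by
      refine h1.trans (le_of_eq (sum_congr ?_ fun _ _ => rfl))
      refine filter_congr fun i _ => ?_
      rw [Ne, Ne, sub_eq_zero]) (Real.log (β p.2) - Real.log (β p.1))
    rw [hW, hN]
    refine h2.trans (mul_le_mul_of_nonneg_right ?_ (prod_nonneg fun i _ => Nat.cast_nonneg _))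
    refine div_le_div_of_nonneg_right ?_ hη.le
    linarith
  calc (#B : ℝ) * √Q ≤ (∑ p ∈ (M ×ˢ M).filter (fun p => p.1 ≠ p.2), (#(W p) : ℝ)) * √Q :=
        mul_le_mul_of_nonneg_right hcard (Real.sqrt_nonneg _)
    _ = ∑ p ∈ (M ×ˢ M).filter (fun p => p.1 ≠ p.2), (#(W p) : ℝ) * √Q := by rw [sum_mul]
    _ ≤ ∑ _p ∈ (M ×ˢ M).filter (fun p => p.1 ≠ p.2), 100 * (1 + Real.log H) / η * N := sum_le_sum hone
    _ = #((M ×ˢ M).filter (fun p => p.1 ≠ p.2)) * (100 * (1 + Real.log H) / η * N) := by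
        rw [sum_const, nsmul_eq_mul]
    _ ≤ (#M : ℝ) ^ 2 * (100 * (1 + Real.log H) / η * N) := by
        refine mul_le_mul_of_nonneg_right ?_ (by positivity)
        have h1 : #((M ×ˢ M).filter (fun p => p.1 ≠ p.2)) ≤ #M ^ 2 := by
          refine (card_filter_le _ _).trans ?_
          rw [card_product, sq]
        exact_mod_cast h1
    _ = _ := by ring

open Classical in
theorem dense_sets (hF : ∀ i, ∀ x ∈ F i, 0 < x ∧ x < 1) (hη : 0 < η) (hη1 : η ≤ 1) (hQ : 0 < Q)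
    (e : Fin r → ℤ) (hQF : Q ≤ ∑ i with e i ≠ 0, far (F i) η) {H : ℕ} (hH : 1 ≤ H)
    (E : Finset (Fin r → ℚ)) (hE : E ⊆ Fintype.piFinset F) :
    ∃ G ⊆ E, (#E : ℝ) * √Q ≤ #G * (100 * (1 + Real.log H) / η * ∏ i, (#(F i) : ℝ)) ∧
      ∀ c : (Fin r → ℚ) → ℂ, (∀ a ∈ G, HeightLe H (c a)) → ∀ a ∈ G,
        ‖c a‖ * val e a / 2 ≤ ‖∑ b ∈ G, c b * ((val e b : ℝ) : ℂ)‖ := by
  obtain ⟨Λ, hΛ⟩ : ∃ Λ : ℝ, Λ = Real.log (1 + 2 * ((H : ℝ) + 1) ^ 2) := ⟨_, rfl⟩
  have hH1 : (1 : ℝ) ≤ H := by exact_mod_cast hH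
  have hΛ0 : 0 ≤ Λ := by
    rw [hΛ]
    exact Real.log_nonneg (by nlinarith)
  have hΛ1 : Λ ≤ 9 / 4 + 2 * Real.log H := by
    rw [hΛ]
    exact log_H hH
  have hlH : 0 ≤ Real.log H := Real.log_nonneg hH1
  have hpos : ∀ a ∈ E, 0 < val e a := fun a ha => (log_prod hF (hE ha) e).1
  obtain ⟨Pg, hPg⟩ : ∃ Pg : Finset (Fin r → ℚ) → Prop, ∀ G, Pg G ↔ ∀ a ∈ G, ∀ b ∈ G, a ≠ b →
    Λ < |Real.log (val e a) - Real.log (val e b)| := ⟨_, fun _ => Iff.rfl⟩
  obtain ⟨S, hS⟩ : ∃ S : Finset (Finset (Fin r → ℚ)), S = E.powerset.filter Pg := ⟨_, rfl⟩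
  have hSne : S.Nonempty := ⟨∅, by
    rw [hS, mem_filter, hPg]
    simp⟩
  obtain ⟨G, hG, hGmax⟩ := exists_max_image S (fun G => #G) hSne
  rw [hS, mem_filter, mem_powerset, hPg] at hG
  refine ⟨G, hG.1, ?_, ?_⟩
  · have hcov : E ⊆ G.biUnion (fun b => (Fintype.piFinset F).filter (fun a =>
        |Real.log (∏ i, Real.Gamma (a i : ℝ) ^ e i) - Real.log (val e b)| ≤ Λ)) := by
      intro a ha
      rw [mem_biUnion]
      by_cases haG : a ∈ G
      · refine ⟨a, haG, ?_⟩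
        rw [mem_filter]
        refine ⟨hE ha, ?_⟩
        show |Real.log (val e a) - Real.log (val e a)| ≤ Λ
        rw [sub_self, abs_zero]
        exact hΛ0
      · by_contra hno
        have h1 : ∀ b ∈ G, Λ < |Real.log (val e a) - Real.log (val e b)| := by
          intro b hb
          by_contra hc
          exact hno ⟨b, hb, by rw [mem_filter]; exact ⟨hE ha, not_lt.1 hc⟩⟩
        have h2 : insert a G ∈ S := by
          rw [hS, mem_filter, mem_powerset, hPg]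
          refine ⟨insert_subset ha hG.1, ?_⟩
          intro x hx y hy hxy
          rcases mem_insert.1 hx with hx1 | hx1
          · rcases mem_insert.1 hy with hy1 | hy1
            · exact absurd (hx1.trans hy1.symm) hxy
            · rw [hx1]
              exact h1 y hy1
          · rcases mem_insert.1 hy with hy1 | hy1
            · rw [hy1, abs_sub_comm]
              exact h1 x hx1
            · exact hG.2 x hx1 y hy1 hxy
        have h3 := hGmax _ h2
        rw [card_insert_of_notMem haG] at h3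
        omega
    have h1 : (#E : ℝ) ≤ ∑ b ∈ G, (#((Fintype.piFinset F).filter (fun a =>
        |Real.log (∏ i, Real.Gamma (a i : ℝ) ^ e i) - Real.log (val e b)| ≤ Λ)) : ℝ) := by
      exact_mod_cast (card_le_card hcov).trans card_biUnion_le
    have hQF' := hQF
    simp only [far_eq] at hQF'
    calc (#E : ℝ) * √Q ≤ (∑ b ∈ G, (#((Fintype.piFinset F).filter (fun a =>
          |Real.log (∏ i, Real.Gamma (a i : ℝ) ^ e i) - Real.log (val e b)| ≤ Λ)) : ℝ)) * √Q :=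
          mul_le_mul_of_nonneg_right h1 (Real.sqrt_nonneg _)
      _ = ∑ b ∈ G, (#((Fintype.piFinset F).filter (fun a =>
          |Real.log (∏ i, Real.Gamma (a i : ℝ) ^ e i) - Real.log (val e b)| ≤ Λ)) : ℝ) * √Q := by rw [sum_mul]
      _ ≤ ∑ _b ∈ G, 100 * (1 + Real.log H) / η * ∏ i, (#(F i) : ℝ) := by
          refine sum_le_sum fun b _ => ?_
          refine (window hF hη hη1 hQ hΛ0 e hQF' _).trans ?_
          refine mul_le_mul_of_nonneg_right ?_ (prod_nonneg fun i _ => Nat.cast_nonneg _)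
          refine div_le_div_of_nonneg_right ?_ hη.le
          linarith
      _ = _ := by rw [sum_const, nsmul_eq_mul]
  · intro c hc a ha
    refine dominate (T := fun a => val e a) (K := (H : ℝ) + 1) (by linarith) G (fun a ha => hpos a (hG.1 ha)) ?_ c
      (fun a ha h0 => height_bounds (hc a ha) h0) ha
    intro x hx y hy hxy hle
    have h1 := hG.2 x hx y hy hxy
    have hx0 := hpos x (hG.1 hx)
    have hy0 := hpos y (hG.1 hy)
    have h2 : Real.log (val e x) ≤ Real.log (val e y) := Real.log_le_log hx0 hle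
    rw [abs_sub_comm, abs_of_nonneg (by linarith), hΛ] at h1
    have h3 : Real.log ((1 + 2 * ((H : ℝ) + 1) ^ 2) * val e x) ≤ Real.log (val e y) := by
      rw [Real.log_mul (by positivity) hx0.ne']
      linarith
    exact (Real.log_le_log_iff (by positivity) hy0).1 h3

end main

/-- the fractions with denominator `D` -/
def fracs (D : ℕ) : Finset ℚ := (Ioo 0 D).image (fun k : ℕ => (k : ℚ) / D)

lemma fracs_mem {D : ℕ} {x : ℚ} (h : x ∈ fracs D) : 0 < x ∧ x < 1 := by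
  unfold fracs at h
  rw [mem_image] at h
  obtain ⟨k, hk, rfl⟩ := h
  rw [mem_Ioo] at hk
  have hD : (0 : ℚ) < D := by exact_mod_cast hk.1.trans hk.2
  have hk0 : (0 : ℚ) < k := by exact_mod_cast hk.1
  have hk1 : (k : ℚ) < D := by exact_mod_cast hk.2
  exact ⟨by positivity, by rw [div_lt_one hD]; exact hk1⟩

lemma frac_inj {D : ℕ} (hD : 0 < D) : Function.Injective (fun k : ℕ => (k : ℚ) / D) := by
  intro a b h
  have hD' : (D : ℚ) ≠ 0 := by positivity
  have h1 : (a : ℚ) / D = b / D := h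
  rw [div_left_inj' hD'] at h1
  exact_mod_cast h1

lemma fracs_card {D : ℕ} (hD : 0 < D) : #(fracs D) = D - 1 := by
  unfold fracs
  rw [card_image_of_injective _ (frac_inj hD), Nat.card_Ioo]
  omega

lemma fracs_far {D : ℕ} (hD : 3 ≤ D) : 1 / 8 ≤ far (fracs D) (1 / 4) := by
  classical
  have hD0 : 0 < D := by omega
  have hDR : (0 : ℝ) < D := by exact_mod_cast hD0
  obtain ⟨t, ht⟩ : ∃ t, t = 3 * D / 8 := ⟨_, rfl⟩
  have ht1 : 8 * t ≤ 3 * D := by omega
  have ht2 : D - 1 ≤ 4 * t := by omega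
  obtain ⟨U, hU⟩ : ∃ U : Finset ℚ, U = (Icc 1 t).image (fun k : ℕ => (k : ℚ) / D) := ⟨_, rfl⟩
  obtain ⟨V, hV⟩ : ∃ V : Finset ℚ, V = (Icc 1 t).image (fun k : ℕ => ((D - k : ℕ) : ℚ) / D) := ⟨_, rfl⟩
  have hUc : #U = t := by
    rw [hU, card_image_of_injective _ (frac_inj hD0), Nat.card_Icc]
    omega
  have hVc : #V = t := by
    rw [hV, card_image_of_injOn, Nat.card_Icc]
    · omega
    · intro a ha b hb hab
      rw [mem_coe, mem_Icc] at ha hb
      have h1 := frac_inj hD0 hab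
      omega
  have hUm : ∀ x ∈ U, x ∈ fracs D ∧ (x : ℝ) ≤ 3 / 8 := by
    intro x hx
    rw [hU, mem_image] at hx
    obtain ⟨k, hk, rfl⟩ := hx
    rw [mem_Icc] at hk
    refine ⟨?_, ?_⟩
    · unfold fracs
      exact mem_image_of_mem _ (mem_Ioo.2 ⟨by omega, by omega⟩)
    · push_cast
      rw [div_le_iff₀ hDR]
      have : (8 * k : ℝ) ≤ 3 * D := by exact_mod_cast (by omega : 8 * k ≤ 3 * D)
      linarith
  have hVm : ∀ x ∈ V, x ∈ fracs D ∧ 5 / 8 ≤ (x : ℝ) := by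
    intro x hx
    rw [hV, mem_image] at hx
    obtain ⟨k, hk, rfl⟩ := hx
    rw [mem_Icc] at hk
    refine ⟨?_, ?_⟩
    · unfold fracs
      exact mem_image_of_mem (fun k : ℕ => (k : ℚ) / D) (mem_Ioo.2 ⟨by omega, by omega⟩)
    · push_cast
      rw [le_div_iff₀ hDR]
      have : (5 * D : ℝ) ≤ 8 * ((D - k : ℕ) : ℝ) := by exact_mod_cast (by omega : 5 * D ≤ 8 * (D - k))
      linarith
  have hsub : (U ×ˢ V) ∪ (V ×ˢ U) ⊆ {p ∈ fracs D ×ˢ fracs D | (1 / 4 : ℝ) ≤ |(p.1 : ℝ) - p.2|} := by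
    intro p hp
    rw [mem_union, mem_product, mem_product] at hp
    rw [mem_filter, mem_product]
    rcases hp with ⟨h1, h2⟩ | ⟨h1, h2⟩
    · have h3 := hUm _ h1
      have h4 := hVm _ h2
      refine ⟨⟨h3.1, h4.1⟩, ?_⟩
      rw [abs_sub_comm]
      exact le_trans (by linarith [h3.2, h4.2]) (le_abs_self _)
    · have h3 := hVm _ h1
      have h4 := hUm _ h2
      refine ⟨⟨h3.1, h4.1⟩, ?_⟩
      exact le_trans (by linarith [h3.2, h4.2]) (le_abs_self _)
  have hdis : Disjoint (U ×ˢ V) (V ×ˢ U) := by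
    rw [disjoint_left]
    intro p h1 h2
    rw [mem_product] at h1 h2
    have h3 := (hUm _ h1.1).2
    have h4 := (hVm _ h2.1).2
    linarith
  have hcard : 2 * t ^ 2 ≤ #{p ∈ fracs D ×ˢ fracs D | (1 / 4 : ℝ) ≤ |(p.1 : ℝ) - p.2|} := by
    refine le_trans ?_ (card_le_card hsub)
    rw [card_union_of_disjoint hdis, card_product, card_product, hUc, hVc]
    nlinarith
  unfold far
  rw [fracs_card hD0]
  have h1 : (0 : ℝ) < ((D - 1 : ℕ) : ℝ) := by exact_mod_cast (by omega : 0 < D - 1)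
  rw [le_div_iff₀ (by positivity)]
  have h2 : (((D - 1 : ℕ) : ℝ)) ≤ 4 * t := by exact_mod_cast ht2
  have h3 : (2 : ℝ) * t ^ 2 ≤ (#{p ∈ fracs D ×ˢ fracs D | (1 / 4 : ℝ) ≤ |(p.1 : ℝ) - p.2|} : ℝ) := by exact_mod_cast hcard
  have h4 : (((D - 1 : ℕ) : ℝ)) ^ 2 ≤ (4 * t) ^ 2 := pow_le_pow_left₀ h1.le h2 2
  nlinarith

open Classical in
/-- few tuples satisfy the identity for the fractional parts with `m = 1` -/
lemma identity_rare {r : ℕ} {F : Fin r → Finset ℚ} {η Q : ℝ} (hη : 0 < η)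
    (hQ : 0 < Q) (hQF : Q ≤ ∑ i, far (F i) η) :
    (#{a ∈ Fintype.piFinset F | ∑ i, a i = (r : ℚ) / 2} : ℝ) * √Q ≤ 3 * ∏ i, (#(F i) : ℝ) := by
  have h1 := conc F (fun _ x => (x : ℝ)) (h := η) hη hQ (R := 0) le_rfl (by
    simp only [far_eq] at hQF
    exact hQF) ((r : ℝ) / 2)
  have h2 : #{a ∈ Fintype.piFinset F | ∑ i, a i = (r : ℚ) / 2} ≤
      #((Fintype.piFinset F).filter (fun a => |∑ i, ((a i : ℚ) : ℝ) - (r : ℝ) / 2| ≤ 0)) := by
    refine card_le_card fun a ha => ?_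
    rw [mem_filter] at ha ⊢
    refine ⟨ha.1, ?_⟩
    have h3 : ∑ i, ((a i : ℚ) : ℝ) = (r : ℝ) / 2 := by
      have := congrArg (fun q : ℚ => (q : ℝ)) ha.2
      push_cast at this
      exact this
    rw [h3, sub_self, abs_zero]
  have h3 : 3 * (2 * 0 / η + 1) = (3 : ℝ) := by simp
  rw [h3] at h1
  exact (mul_le_mul_of_nonneg_right (by exact_mod_cast h2) (Real.sqrt_nonneg _)).trans h1

open Classical in
theorem denominators {r : ℕ} (hr : 1 ≤ r) (D : Fin r → ℕ) (hD : ∀ i, 3 ≤ D i) {H : ℕ} (hH : 1 ≤ H) :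
    (#{k ∈ Fintype.piFinset (fun i => Ioo 0 (D i)) |
      (∃ α : ℂ, HeightLe H α ∧ ((∏ i, Real.Gamma ((k i : ℝ) / D i) : ℝ) : ℂ) = α * ((Real.pi ^ ((r : ℝ) / 2) : ℝ) : ℂ)) ∨
      ∃ N : ℕ, 2 ≤ N ∧ FracIdentity N (fun i => (k i : ℚ) / D i)} : ℝ) * √r ≤
      1000 * (1 + Real.log H) * ∏ i, ((D i : ℝ) - 1) := by
  obtain ⟨F, hF⟩ : ∃ F : Fin r → Finset ℚ, F = fun i => fracs (D i) := ⟨_, rfl⟩
  have hF1 : ∀ i, ∀ x ∈ F i, 0 < x ∧ x < 1 := by
    intro i x hx
    rw [hF] at hx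
    exact fracs_mem hx
  have hH1 : (1 : ℝ) ≤ H := by exact_mod_cast hH
  have hlH : 0 ≤ Real.log H := Real.log_nonneg hH1
  have hr0 : (0 : ℝ) < r := by exact_mod_cast hr
  obtain ⟨N, hN⟩ : ∃ N : ℝ, N = ∏ i, (#(F i) : ℝ) := ⟨_, rfl⟩
  have hNe : N = ∏ i, ((D i : ℝ) - 1) := by
    rw [hN, hF]
    refine prod_congr rfl fun i _ => ?_
    have := hD i
    rw [fracs_card (by omega), Nat.cast_sub (by omega)]
    simp
  have hN0 : 0 ≤ N := by
    rw [hN]
    exact prod_nonneg fun i _ => Nat.cast_nonneg _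
  rw [← hNe]
  have hfar : ∀ i, 1 / 8 ≤ far (F i) (1 / 4) := by
    intro i
    rw [hF]
    exact fracs_far (hD i)
  have hQ : (r : ℝ) / 8 ≤ ∑ i, far (F i) (1 / 4) := by
    calc (r : ℝ) / 8 = ∑ _i : Fin r, (1 / 8 : ℝ) := by
          rw [sum_const, card_univ, Fintype.card_fin, nsmul_eq_mul]
          ring
      _ ≤ _ := sum_le_sum fun i _ => hfar i
  -- the two sets of tuples
  have hpi : (0 : ℝ) < Real.pi ^ ((r : ℝ) / 2) := Real.rpow_pos_of_pos Real.pi_pos _
  obtain ⟨L, hL⟩ : ∃ L : ℝ, L = 2 * Real.log ((H : ℝ) + 1) := ⟨_, rfl⟩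
  have hL0 : 0 ≤ L := by
    rw [hL]
    have := Real.log_nonneg (show (1 : ℝ) ≤ (H : ℝ) + 1 by linarith)
    linarith
  have hL1 : L ≤ 7 / 5 + 2 * Real.log H := by
    have h1 : Real.log ((H : ℝ) + 1) ≤ Real.log (2 * H) := Real.log_le_log (by linarith) (by linarith)
    rw [Real.log_mul (by norm_num) (by linarith)] at h1
    have := Real.log_two_lt_d9
    rw [hL]
    linarith
  have h1 := small_ball hF1 (by norm_num : (0 : ℝ) < 1 / 4) (by norm_num) (by positivity : (0 : ℝ) < (r : ℝ) / 8)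
    (fun _ => (1 : ℤ)) (by
      refine hQ.trans (le_of_eq ?_)
      rw [filter_true_of_mem]
      intro i _
      norm_num) (y := Real.pi ^ ((r : ℝ) / 2) / ((H : ℝ) + 1)) (by positivity) hL0
  have h2 := identity_rare (r := r) (F := F) (by norm_num : (0 : ℝ) < 1 / 4) (by positivity : (0 : ℝ) < (r : ℝ) / 8) hQ
  rw [← hN] at h1 h2
  have hsub : #{k ∈ Fintype.piFinset (fun i => Ioo 0 (D i)) |
      (∃ α : ℂ, HeightLe H α ∧ ((∏ i, Real.Gamma ((k i : ℝ) / D i) : ℝ) : ℂ) = α * ((Real.pi ^ ((r : ℝ) / 2) : ℝ) : ℂ)) ∨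
      ∃ N : ℕ, 2 ≤ N ∧ FracIdentity N (fun i => (k i : ℚ) / D i)} ≤
      #({a ∈ Fintype.piFinset F | Real.pi ^ ((r : ℝ) / 2) / ((H : ℝ) + 1) ≤ val (fun _ => (1 : ℤ)) a ∧
        val (fun _ => (1 : ℤ)) a ≤ Real.exp L * (Real.pi ^ ((r : ℝ) / 2) / ((H : ℝ) + 1))} ∪
        {a ∈ Fintype.piFinset F | ∑ i, a i = (r : ℚ) / 2}) := by
    refine card_le_card_of_injOn (fun k i => (k i : ℚ) / D i) ?_ ?_
    · intro k hk
      rw [mem_coe, mem_filter, Fintype.mem_piFinset] at hk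
      have hkF : (fun i => (k i : ℚ) / D i) ∈ Fintype.piFinset F := by
        rw [Fintype.mem_piFinset, hF]
        intro i
        exact mem_image_of_mem (fun k : ℕ => (k : ℚ) / D i) (hk.1 i)
      rw [mem_coe, mem_union, mem_filter, mem_filter]
      rcases hk.2 with ⟨α, hα, he⟩ | ⟨M, hM2, hid⟩
      · left
        refine ⟨hkF, ?_⟩
        have hv : val (fun _ => (1 : ℤ)) (fun i => (k i : ℚ) / D i) = ∏ i, Real.Gamma ((k i : ℝ) / D i) := by
          unfold val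
          refine prod_congr rfl fun i _ => ?_
          rw [zpow_one]
          push_cast
          rfl
        have hvpos := (log_prod hF1 hkF (fun _ => (1 : ℤ))).1
        have hvpos' : 0 < ∏ i, Real.Gamma ((k i : ℝ) / D i) := by
          rw [← hv]
          exact hvpos
        have hα0 : α ≠ 0 := by
          intro h0
          rw [h0, zero_mul] at he
          exact hvpos'.ne' (by exact_mod_cast he)
        have hb := height_bounds hα hα0
        have hn : ∏ i, Real.Gamma ((k i : ℝ) / D i) = ‖α‖ * Real.pi ^ ((r : ℝ) / 2) := by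
          have h3 := congrArg norm he
          rw [norm_mul, Complex.norm_real, Complex.norm_real, Real.norm_of_nonneg hvpos'.le,
            Real.norm_of_nonneg hpi.le] at h3
          exact h3
        rw [hv, hn]
        constructor
        · calc Real.pi ^ ((r : ℝ) / 2) / ((H : ℝ) + 1) = 1 / ((H : ℝ) + 1) * Real.pi ^ ((r : ℝ) / 2) := by ring
            _ ≤ _ := mul_le_mul_of_nonneg_right hb.1 hpi.le
        · have e : Real.exp L = ((H : ℝ) + 1) ^ 2 := by
            rw [hL, mul_comm, ← Real.rpow_natCast, Real.rpow_def_of_pos (by linarith)]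
            norm_num
          rw [e]
          have e2 : ((H : ℝ) + 1) ^ 2 * (Real.pi ^ ((r : ℝ) / 2) / ((H : ℝ) + 1)) =
              ((H : ℝ) + 1) * Real.pi ^ ((r : ℝ) / 2) := by
            field_simp
          rw [e2]
          exact mul_le_mul_of_nonneg_right hb.2 hpi.le
      · right
        refine ⟨hkF, ?_⟩
        have h3 := hid 1 le_rfl (by omega) (Nat.coprime_one_left M)
        rw [← h3]
        refine sum_congr rfl fun i _ => ?_
        have h4 := hF1 i _ (Fintype.mem_piFinset.1 hkF i)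
        rw [Nat.cast_one, one_mul]
        exact (Int.fract_eq_self.2 ⟨h4.1.le, h4.2⟩).symm
    · intro k hk k' hk' h
      rw [mem_coe, mem_filter, Fintype.mem_piFinset] at hk
      funext i
      have h3 := congrFun h i
      have h4 : 0 < D i := by
        have := hD i
        omega
      exact frac_inj h4 h3
  have hsub2 : (#{k ∈ Fintype.piFinset (fun i => Ioo 0 (D i)) |
      (∃ α : ℂ, HeightLe H α ∧ ((∏ i, Real.Gamma ((k i : ℝ) / D i) : ℝ) : ℂ) = α * ((Real.pi ^ ((r : ℝ) / 2) : ℝ) : ℂ)) ∨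
      ∃ N : ℕ, 2 ≤ N ∧ FracIdentity N (fun i => (k i : ℚ) / D i)} : ℝ) ≤
      (#{a ∈ Fintype.piFinset F | Real.pi ^ ((r : ℝ) / 2) / ((H : ℝ) + 1) ≤ val (fun _ => (1 : ℤ)) a ∧
        val (fun _ => (1 : ℤ)) a ≤ Real.exp L * (Real.pi ^ ((r : ℝ) / 2) / ((H : ℝ) + 1))} : ℝ) +
        (#{a ∈ Fintype.piFinset F | ∑ i, a i = (r : ℚ) / 2} : ℝ) := by
    exact_mod_cast hsub.trans (card_union_le _ _)
  have h3 : (#{k ∈ Fintype.piFinset (fun i => Ioo 0 (D i)) |
      (∃ α : ℂ, HeightLe H α ∧ ((∏ i, Real.Gamma ((k i : ℝ) / D i) : ℝ) : ℂ) = α * ((Real.pi ^ ((r : ℝ) / 2) : ℝ) : ℂ)) ∨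
      ∃ N : ℕ, 2 ≤ N ∧ FracIdentity N (fun i => (k i : ℚ) / D i)} : ℝ) * √((r : ℝ) / 8) ≤
      30 * (1 + L) / (1 / 4) * N + 3 * N := by
    have h4 := mul_le_mul_of_nonneg_right hsub2 (Real.sqrt_nonneg ((r : ℝ) / 8))
    rw [add_mul] at h4
    linarith
  have h4 : √((r : ℝ)) ≤ 3 * √((r : ℝ) / 8) := by
    rw [Real.sqrt_le_left (by positivity), mul_pow, Real.sq_sqrt (by positivity)]
    linarith
  have h5 : 30 * (1 + L) / (1 / 4) * N + 3 * N ≤ 333 * (1 + Real.log H) * N := by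
    have : 30 * (1 + L) / (1 / 4) + 3 ≤ 333 * (1 + Real.log H) := by linarith
    nlinarith
  refine (mul_le_mul_of_nonneg_left h4 (Nat.cast_nonneg _)).trans ?_
  have h6 : 0 ≤ (1 + Real.log H) * N := by positivity
  nlinarith

open Classical in
theorem result :
    (∀ (r : ℕ) (F : Fin r → Finset ℚ), (∀ i, ∀ x ∈ F i, 0 < x ∧ x < 1) →
      ∀ η Q : ℝ, 0 < η → η ≤ 1 → 0 < Q →
      -- (1) few products have about the same size
      (∀ e : Fin r → ℤ, Q ≤ ∑ i with e i ≠ 0, far (F i) η → ∀ y L : ℝ, 0 < y → 0 ≤ L →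
        (#{a ∈ Fintype.piFinset F | y ≤ val e a ∧ val e a ≤ Real.exp L * y} : ℝ) * √Q ≤
          30 * (1 + L) / η * ∏ i, (#(F i) : ℝ)) ∧
      -- (2) almost all tuples satisfy no relation between the monomials in `M`
      (∀ (M : Finset (Fin r → ℤ)) (β : (Fin r → ℤ) → ℝ), (∀ m ∈ M, 0 < β m) →
        (∀ m ∈ M, ∀ m' ∈ M, m ≠ m' → Q ≤ ∑ i with m i ≠ m' i, far (F i) η) → ∀ H : ℕ, 1 ≤ H →
        (#{a ∈ Fintype.piFinset F | ¬ ∀ c : (Fin r → ℤ) → ℂ, (∀ m ∈ M, HeightLe H (c m)) → ∀ m ∈ M,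
          ‖c m‖ * (β m * val m a) / 2 ≤ ‖∑ m' ∈ M, c m' * ((β m' * val m' a : ℝ) : ℂ)‖} : ℝ) * √Q ≤
          100 * (1 + Real.log H) * (#M : ℝ) ^ 2 / η * ∏ i, (#(F i) : ℝ)) ∧
      -- (3) dense sets of tuples contain large sets without linear relations
      (∀ e : Fin r → ℤ, Q ≤ ∑ i with e i ≠ 0, far (F i) η → ∀ H : ℕ, 1 ≤ H →
        ∀ E ⊆ Fintype.piFinset F,
        ∃ G ⊆ E, (#E : ℝ) * √Q ≤ #G * (100 * (1 + Real.log H) / η * ∏ i, (#(F i) : ℝ)) ∧
          ∀ c : (Fin r → ℚ) → ℂ, (∀ a ∈ G, HeightLe H (c a)) → ∀ a ∈ G,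
            ‖c a‖ * val e a / 2 ≤ ‖∑ b ∈ G, c b * ((val e b : ℝ) : ℂ)‖)) ∧
    -- (4) Rohrlich's equivalence for almost all tuples of fractions with given denominators
    (∀ (r : ℕ) (D : Fin r → ℕ), 1 ≤ r → (∀ i, 3 ≤ D i) → ∀ H : ℕ, 1 ≤ H →
      (#{k ∈ Fintype.piFinset (fun i => Ioo 0 (D i)) |
        (∃ α : ℂ, HeightLe H α ∧
          ((∏ i, Real.Gamma ((k i : ℝ) / D i) : ℝ) : ℂ) = α * ((Real.pi ^ ((r : ℝ) / 2) : ℝ) : ℂ)) ∨
        ∃ N : ℕ, 2 ≤ N ∧ FracIdentity N (fun i => (k i : ℚ) / D i)} : ℝ) * √r ≤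
        1000 * (1 + Real.log H) * ∏ i, ((D i : ℝ) - 1)) := by
  refine ⟨fun r F hF η Q hη hη1 hQ => ⟨?_, ?_, ?_⟩, ?_⟩
  · intro e hQF y L hy hL
    exact small_ball hF hη hη1 hQ e hQF hy hL
  · intro M β hβ hM H hH
    exact relations hF hη hη1 hQ M β hβ hM hH
  · intro e hQF H hH E hE
    exact dense_sets hF hη hη1 hQ e hQF hH E hE
  · intro r D hr hD H hH
    exact denominators hr D hD hH

end Pool.Agent.Results.MP_c2409d_nt.GrowingProducts
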