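import Pool.Agent.L5helper73.GS.C

/-!
# Rohrlich's conjecture for infinite sequences of rational numbers and all their rational multiples

We choose one after the other rational numbers `x_0, x_1, x_2, …`. At the step `j` a large number `T_j` (above a threshold,
and `T_0 ≤ T_1 ≤ …`) and an interval of length `2 T_j ^ (-δ_j)` around an arbitrary point of `[a, b]` are given, and
`x_j` may be any rational number of this interval with denominator at most `T_j`, with at most `C_j` exceptions, which depend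
on the numbers chosen before. The numbers `δ_j > 0` are arbitrary, and `C_j` does not depend on the `T_j`. Then all the numbers
`Γ(1 + s x_j) = s x_j Γ(s x_j)`, where `s` is rational and positive (of height at most `ψ(j)`), are algebraically
independent in growing degree and height, relative to `√π`, arbitrary constants and all such numbers with smaller `j`,
and no product of them is an algebraic multiple of `π ^ (r / 2)` of growing degree and height. Here `ψ` is any increasing
function.
-/

set_option autoImplicit false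

open MvPolynomial

namespace Pool.Agent.Results.MP_c2409d_nt.InfiniteSequences

/-- the multipliers: the rational numbers `u / v`, `1 ≤ u, v ≤ n` -/
def mult (n : ℕ) : Finset ℚ := (Finset.Icc 1 n ×ˢ Finset.Icc 1 n).image fun p => (p.1 : ℚ) / p.2

/-- the indices of the numbers: natural numbers (for the constants) and pairs `(j, s)`, `s` a multiplier of height `≤ ψ j` -/
abbrev Ind (ψ : ℕ → ℕ) : Type := ℕ ⊕ Σ j : ℕ, mult (ψ j)

/-- the numbers: the constants `√π, c_0, c_1, …` and `Γ(1 + s x_j)` for the pairs `(j, s)` -/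
noncomputable def value (ψ : ℕ → ℕ) (c : ℕ → ℂ) (x : ℕ → ℚ) : Ind ψ → ℂ :=
  Sum.elim (fun i => Nat.casesOn i ((Real.sqrt Real.pi : ℝ) : ℂ) c)
    fun z => Complex.Gamma ((1 + (z.2 : ℚ) * x z.1 : ℚ) : ℂ)

/-- The complex number `α` is algebraic of degree at most `m` and height at most `H`: it is a root of a nonzero polynomial of
degree at most `m` whose coefficients are integers of absolute value at most `H`. -/
def AlgLe (m : ℕ) (H : ℝ) (α : ℂ) : Prop :=
  ∃ p : Polynomial ℤ, p ≠ 0 ∧ p.natDegree ≤ m ∧ (∀ i, |(p.coeff i : ℝ)| ≤ H) ∧ Polynomial.aeval α p = 0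

/-- Independence from level `k` on: every polynomial `P` in the numbers, with integral coefficients of absolute value at
most `H` and of degree at most `D` in each of the (arbitrarily many) variables, in which no constant after the first `D + 1`
ones occurs, and which vanishes at the values, still vanishes if the numbers `Γ(1 + s x_j)`, `j ≥ k`, are replaced by
arbitrary complex numbers. -/
def Independent (ψ : ℕ → ℕ) (c : ℕ → ℂ) (x : ℕ → ℚ) (k D : ℕ) (H : ℝ) : Prop :=
  ∀ P : MvPolynomial (Ind ψ) ℤ, (∀ v, P.degreeOf v ≤ D) → (∀ s, |((P.coeff s : ℤ) : ℝ)| ≤ H) →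
    (∀ i, Sum.inl i ∈ P.vars → i ≤ D) → aeval (value ψ c x) P = 0 →
    ∀ y : Ind ψ → ℂ, (∀ i, y (Sum.inl i) = value ψ c x (Sum.inl i)) →
      (∀ z, z.1 < k → y (Sum.inr z) = value ψ c x (Sum.inr z)) → aeval y P = 0

open Pool.Agent.L5helper73.GS

theorem value_eq {ψ : ℕ → ℕ} (c : ℕ → ℂ) (x : ℕ → ℚ) :
    value ψ c x = val (fun j => gam (ψ j)) (fun i => Nat.casesOn i ((Real.sqrt Real.pi : ℝ) : ℂ) c) x := by
  funext z
  rcases z with i | z
  · rfl
  · show Complex.Gamma ((1 + (z.2 : ℚ) * x z.1 : ℚ) : ℂ) = Complex.Gamma (1 + (z.2 : ℚ) * (x z.1 : ℂ))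
    push_cast
    rfl

section
variable {ψ : ℕ → ℕ} {r : ℕ} (z : Fin r → Σ j : ℕ, mult (ψ j)) (m : ℕ)

/-- the exponents -/
noncomputable def ex (l : ℕ) : Ind ψ →₀ ℕ :=
  Finsupp.single (Sum.inl 0) (r * (m - l)) + l • ∑ i, Finsupp.single (Sum.inr (z i)) 1

/-- the relation -/
noncomputable def rel (p : Polynomial ℤ) : MvPolynomial (Ind ψ) ℤ :=
  ∑ l ∈ Finset.range (m + 1), monomial (ex z m l) (p.coeff l)

theorem ex_zero (l : ℕ) : ex z m l (Sum.inl 0) = r * (m - l) := by
  unfold ex
  rw [Finsupp.add_apply, Finsupp.single_eq_same, Finsupp.smul_apply, Finsupp.finsetSum_apply]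
  rw [Finset.sum_eq_zero]
  · simp
  · intro i _
    exact Finsupp.single_eq_of_ne (by simp)

theorem ex_le (l : ℕ) (hl : l ≤ m) (v : Ind ψ) : ex z m l v ≤ r * m := by
  unfold ex
  rw [Finsupp.add_apply, Finsupp.smul_apply, Finsupp.finsetSum_apply]
  have h1 : ∑ i : Fin r, (Finsupp.single (Sum.inr (z i) : Ind ψ) 1) v ≤ r := by
    calc ∑ i : Fin r, (Finsupp.single (Sum.inr (z i) : Ind ψ) 1) v ≤ ∑ i : Fin r, 1 := by
          refine Finset.sum_le_sum fun i _ => ?_
          rw [Finsupp.single_apply]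
          split_ifs <;> omega
      _ = r := by simp
  rcases v with i | v
  · have h2 : ∑ j : Fin r, (Finsupp.single (Sum.inr (z j) : Ind ψ) 1) (Sum.inl i) = 0 := by
      refine Finset.sum_eq_zero fun j _ => ?_
      exact Finsupp.single_eq_of_ne (by simp)
    rw [h2, Finsupp.single_apply]
    split_ifs
    · simp only [smul_zero, add_zero]
      exact Nat.mul_le_mul_left r (Nat.sub_le _ _)
    · simp
  · rw [Finsupp.single_eq_of_ne (by simp), zero_add, smul_eq_mul, mul_comm]
    exact Nat.mul_le_mul h1 hl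

theorem ex_inj (hr : 0 < r) {l l' : ℕ} (hl : l ≤ m) (hl' : l' ≤ m) (h : ex z m l = ex z m l') : l = l' := by
  have h1 := DFunLike.congr_fun h (Sum.inl 0)
  rw [ex_zero, ex_zero] at h1
  have h2 := Nat.eq_of_mul_eq_mul_left hr h1
  omega

theorem coeff_rel (hr : 0 < r) (p : Polynomial ℤ) (s : Ind ψ →₀ ℕ) (hs : coeff s (rel z m p) ≠ 0) :
    ∃ l ≤ m, ex z m l = s ∧ coeff s (rel z m p) = p.coeff l := by
  classical
  unfold rel at hs ⊢
  rw [coeff_sum] at hs ⊢
  simp only [coeff_monomial] at hs ⊢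
  obtain ⟨l, hl, hl'⟩ := Finset.exists_ne_zero_of_sum_ne_zero hs
  rw [Finset.mem_range] at hl
  have h1 : ex z m l = s := by
    by_contra h
    exact hl' (if_neg h)
  refine ⟨l, by omega, h1, ?_⟩
  rw [Finset.sum_eq_single l]
  · rw [if_pos h1]
  · intro l' hl'' hne
    rw [Finset.mem_range] at hl''
    refine if_neg fun h => hne (ex_inj z m hr (by omega) (by omega) (h.trans h1.symm))
  · intro h
    exact absurd (Finset.mem_range.2 hl) h

theorem eval_rel (p : Polynomial ℤ) (v : Ind ψ → ℂ) :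
    aeval v (rel z m p) = ∑ l ∈ Finset.range (m + 1),
      (p.coeff l : ℂ) * (v (Sum.inl 0) ^ (r * (m - l)) * (∏ i, v (Sum.inr (z i))) ^ l) := by
  unfold rel
  rw [map_sum]
  refine Finset.sum_congr rfl fun l _ => ?_
  have h1 : (monomial (ex z m l) (p.coeff l) : MvPolynomial (Ind ψ) ℤ) =
      C (p.coeff l) * (X (Sum.inl 0) ^ (r * (m - l)) * (∏ i, X (Sum.inr (z i))) ^ l) := by
    have h2 : ∀ i : Fin r, (X (Sum.inr (z i)) : MvPolynomial (Ind ψ) ℤ) =
        monomial (Finsupp.single (Sum.inr (z i) : Ind ψ) 1) 1 := fun i => rfl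
    rw [Finset.prod_congr rfl fun i _ => h2 i, ← monomial_sum_one, monomial_pow, one_pow, X_pow_eq_monomial, monomial_mul,
      C_mul_monomial]
    simp only [mul_one]
    rfl
  rw [h1, map_mul, aeval_C, eq_intCast]
  simp only [map_mul, map_pow, map_prod, aeval_X]

end

/-- Let `0 < a ≤ b`, let `ψ` be an increasing function and `δ j > 0`. There are numbers `C j` and thresholds `τ j` with the
following property. Let `T 0 ≤ T 1 ≤ …`, `T j ≥ τ j`, let `t j ∈ [a, b]`, and let `c 0, c 1, …` be any complex numbers. Then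
there are sets `E j x` of at most `C j` rational numbers, where `E j x` only depends on `x 0, …, x (j - 1)`, such that for
every sequence `x` of rational numbers and every `k` with `|x j - t j| ≤ T j ^ (-δ j)`, denominator of `x j` at most `T j` and
`x j ∉ E j x` for all `j ≥ k`: (1) the numbers `Γ(1 + s x_j)`, `j ≥ k`, `s ∈ mult (ψ j)`, are independent in degree `≤ ψ k`
and height `≤ T k ^ ψ k`, relative to the constants and the numbers `Γ(1 + s x_j)`, `j < k`; (2) no product of
`1 ≤ r ≤ ψ k` numbers `Γ(1 + s x_j)`, `j ≥ k`, `s ∈ mult (ψ j)`, is `α π ^ (r / 2)` with an algebraic number `α` of degree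
`≤ ψ k` and height `≤ T k ^ ψ k`. -/
theorem result (a b : ℝ) (ha : 0 < a) (ψ : ℕ → ℕ) (hψ : Monotone ψ) (δ : ℕ → ℝ) (hδ : ∀ j, 0 < δ j) :
    ∃ (C : ℕ → ℕ) (τ : ℕ → ℝ), ∀ (T t : ℕ → ℝ) (c : ℕ → ℂ), Monotone T → (∀ j, τ j ≤ T j ∧ a ≤ t j ∧ t j ≤ b) →
      ∃ E : ℕ → (ℕ → ℚ) → Finset ℚ, (∀ j x, (E j x).card ≤ C j) ∧
        (∀ j x x', (∀ i < j, x i = x' i) → E j x = E j x') ∧
        ∀ (x : ℕ → ℚ) (k : ℕ), (∀ j, k ≤ j → |(x j : ℝ) - t j| ≤ T j ^ (-δ j) ∧ ((x j).den : ℝ) ≤ T j ∧ x j ∉ E j x) →
          Independent ψ c x k (ψ k) (T k ^ ψ k) ∧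
          ∀ r, 1 ≤ r → r ≤ ψ k → ∀ z : Fin r → Σ j : ℕ, mult (ψ j), (∀ i, k ≤ (z i).1) →
            ∀ α : ℂ, AlgLe (ψ k) (T k ^ ψ k) α →
              ∏ i, Complex.Gamma ((1 + ((z i).2 : ℚ) * x (z i).1 : ℚ) : ℂ) ≠ α * ((Real.pi ^ ((r : ℝ) / 2) : ℝ) : ℂ) := by
  classical
  set Ψ : ℕ → ℕ := fun j => ψ j * ψ j + ψ j + 1 with hΨd
  have hΨ : Monotone Ψ := by
    intro i j hij
    have h1 := hψ hij
    simp only [hΨd]
    have := Nat.mul_le_mul h1 h1
    omega
  obtain ⟨C, τ, hτ, H⟩ := seq (κ := fun j => (Mu (ψ j) : Type)) (fun j => gam (ψ j)) (fun _ => a) (fun _ => b)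
    (fun j s t h1 _ => gam_an (ψ j) s t (ha.trans_le h1)) (fun j t h1 _ => gam_ind (ψ j) t (ha.trans_le h1)) Ψ hΨ δ hδ
  refine ⟨C, τ, fun T t c hT hTt => ?_⟩
  obtain ⟨E, hE1, hE2, hE3⟩ := H T t (fun i => Nat.casesOn i ((Real.sqrt Real.pi : ℝ) : ℂ) c) hT hTt
  refine ⟨E, hE1, hE2, fun x k hx => ?_⟩
  have hTk1 : 1 ≤ T k := (hτ k).trans (hTt k).1
  have hψΨ : ψ k ≤ Ψ k := by simp only [hΨd]; omega
  have hHH : T k ^ ψ k ≤ T k ^ Ψ k := pow_le_pow_right₀ hTk1 hψΨ
  have hkey := hE3 x k hx
  have hind : ∀ P : MvPolynomial (Ind ψ) ℤ, (∀ v, P.degreeOf v ≤ Ψ k) → (∀ s, |((P.coeff s : ℤ) : ℝ)| ≤ T k ^ ψ k) →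
      (∀ i, Sum.inl i ∈ P.vars → i < Ψ k) → aeval (value ψ c x) P = 0 →
      ∀ y : Ind ψ → ℂ, (∀ i, y (Sum.inl i) = value ψ c x (Sum.inl i)) →
        (∀ z, z.1 < k → y (Sum.inr z) = value ψ c x (Sum.inr z)) → aeval y P = 0 := by
    intro P hPd hPh hPc h0 y hy1 hy2
    refine hkey P ⟨⟨fun s hs v => ?_, fun s => (hPh s).trans hHH⟩, hPc⟩ ?_ y ?_ ?_
    · exact (monomial_le_degreeOf v (mem_support_iff.2 hs)).trans (hPd v)
    · rw [← value_eq]
      exact h0
    · intro i
      exact hy1 i
    · intro p hp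
      exact (hy2 p hp).trans (congrFun (value_eq c x) (Sum.inr p))
  constructor
  · intro P hPd hPh hPc h0 y hy1 hy2
    exact hind P (fun v => (hPd v).trans hψΨ) hPh (fun i hi => by
      have := hPc i hi
      simp only [hΨd]
      omega) h0 y hy1 hy2
  · intro r hr1 hr z hz α hα hprod
    obtain ⟨p, hp0, hpm, hpH, hpα⟩ := hα
    set w : ℂ := ((Real.sqrt Real.pi : ℝ) : ℂ) with hw
    have hw0 : w ≠ 0 := by
      rw [hw]
      exact_mod_cast (Real.sqrt_pos.2 Real.pi_pos).ne'
    have hwr : ((Real.pi ^ ((r : ℝ) / 2) : ℝ) : ℂ) = w ^ r := by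
      rw [hw, ← Complex.ofReal_pow]
      congr 1
      rw [Real.sqrt_eq_rpow, ← Real.rpow_natCast, ← Real.rpow_mul Real.pi_pos.le]
      congr 1
      ring
    set m := ψ k with hm
    have hv0 : value ψ c x (Sum.inl 0 : Ind ψ) = w := rfl
    have hvz : ∏ i, value ψ c x (Sum.inr (z i) : Ind ψ) = α * w ^ r := by
      rw [← hwr, ← hprod]
      rfl
    have hP0 : aeval (value ψ c x) (rel z m p) = 0 := by
      rw [eval_rel, hv0, hvz]
      have h1 : ∀ l ∈ Finset.range (m + 1), (p.coeff l : ℂ) * (w ^ (r * (m - l)) * (α * w ^ r) ^ l) =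
          w ^ (r * m) * ((p.coeff l : ℂ) * α ^ l) := by
        intro l hl
        rw [Finset.mem_range] at hl
        have h2 : r * m = r * (m - l) + r * l := by
          rw [← Nat.mul_add]
          congr 1
          omega
        rw [h2, pow_add, mul_pow, ← pow_mul]
        ring
      rw [Finset.sum_congr rfl h1, ← Finset.mul_sum]
      have h3 : ∑ l ∈ Finset.range (m + 1), (p.coeff l : ℂ) * α ^ l = Polynomial.aeval α p := by
        rw [Polynomial.aeval_eq_sum_range' (Nat.lt_succ_of_le hpm)]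
        refine Finset.sum_congr rfl fun l _ => ?_
        rw [zsmul_eq_mul]
      rw [h3, hpα, mul_zero]
    have hH0 : 0 ≤ T k ^ ψ k := by positivity
    have hPall := hind (rel z m p) (fun v => by
        rw [degreeOf_le_iff]
        intro s hs
        rw [mem_support_iff] at hs
        obtain ⟨l, hl, rfl, -⟩ := coeff_rel z m (by omega) p s hs
        refine (ex_le z m l hl v).trans ?_
        have h9 : r * m ≤ ψ k * ψ k := Nat.mul_le_mul hr le_rfl
        have h10 : Ψ k = ψ k * ψ k + ψ k + 1 := rfl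
        rw [h10]
        exact h9.trans (by rw [Nat.add_assoc]; exact Nat.le_add_right _ _)) (fun s => by
        by_cases hs : coeff s (rel z m p) = 0
        · rw [hs]
          simpa using hH0
        · obtain ⟨l, -, -, hl⟩ := coeff_rel z m (by omega) p s hs
          rw [hl]
          exact hpH l) (fun i hi => by
        rw [mem_vars_iff_mem_support] at hi
        obtain ⟨s, hs, hsi⟩ := hi
        rw [mem_support_iff] at hs
        obtain ⟨l, -, rfl, -⟩ := coeff_rel z m (by omega) p s hs
        by_contra hcon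
        have hi0 : i ≠ 0 := by
          rintro rfl
          apply hcon
          simp only [hΨd]
          omega
        rw [Finsupp.mem_support_iff] at hsi
        apply hsi
        unfold ex
        rw [Finsupp.add_apply, Finsupp.smul_apply, Finsupp.finsetSum_apply, Finsupp.single_eq_of_ne (by
          intro h
          exact hi0 (Sum.inl_injective h)), Finset.sum_eq_zero]
        · simp
        · intro i _
          exact Finsupp.single_eq_of_ne (by simp)) hP0
    -- replace all the values by `u`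
    have hu : ∀ u : ℂ, ∑ l ∈ Finset.range (m + 1), (p.coeff l : ℂ) * (w ^ (r * (m - l)) * (u ^ r) ^ l) = 0 := by
      intro u
      let y : Ind ψ → ℂ := Sum.elim (fun i => value ψ c x (Sum.inl i))
        (fun q => if k ≤ q.1 then u else value ψ c x (Sum.inr q))
      have h1 := hPall y (fun i => rfl) (fun q hq => if_neg (by omega))
      rw [eval_rel] at h1
      have hyz : ∀ i, y (Sum.inr (z i)) = u := fun i => if_pos (hz i)
      have h2 : ∏ i, y (Sum.inr (z i)) = u ^ r := by
        calc ∏ i, y (Sum.inr (z i)) = ∏ _i : Fin r, u := Finset.prod_congr rfl fun i _ => hyz i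
          _ = u ^ r := by rw [Finset.prod_const, Finset.card_univ, Fintype.card_fin]
      rw [h2] at h1
      exact h1
    -- a polynomial in `u` with infinitely many zeros
    set U : Polynomial ℂ := ∑ l ∈ Finset.range (m + 1), Polynomial.C ((p.coeff l : ℂ) * w ^ (r * (m - l))) *
      (Polynomial.X ^ r) ^ l with hU
    have hU0 : U = 0 := by
      refine Polynomial.funext fun u => ?_
      rw [Polynomial.eval_zero, ← hu u, hU, Polynomial.eval_finsetSum]
      refine Finset.sum_congr rfl fun l _ => ?_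
      simp only [Polynomial.eval_mul, Polynomial.eval_C, Polynomial.eval_pow, Polynomial.eval_X]
      ring
    apply hp0
    ext l
    rw [Polynomial.coeff_zero]
    by_cases hl : l ≤ m
    · have h4 : U.coeff (r * l) = (p.coeff l : ℂ) * w ^ (r * (m - l)) := by
        rw [hU, Polynomial.finsetSum_coeff, Finset.sum_eq_single l]
        · rw [← pow_mul, Polynomial.coeff_C_mul, Polynomial.coeff_X_pow_self, mul_one]
        · intro l' _ hne
          rw [← pow_mul, Polynomial.coeff_C_mul, Polynomial.coeff_X_pow, if_neg, mul_zero]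
          intro h
          exact hne (Nat.eq_of_mul_eq_mul_left (by omega) h).symm
        · intro h
          exact absurd (Finset.mem_range.2 (by omega)) h
      rw [hU0, Polynomial.coeff_zero] at h4
      have h5 := (mul_eq_zero.1 h4.symm).resolve_right (pow_ne_zero _ hw0)
      exact_mod_cast h5
    · exact Polynomial.coeff_eq_zero_of_natDegree_lt (by omega)

end Pool.Agent.Results.MP_c2409d_nt.InfiniteSequences
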